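import Pool.Agent.H327.WR.Stm

set_option autoImplicit false

open Polynomial Finset

namespace Pool.Agent.H327.WR

noncomputable section

/-- `Φ(s, t) = s² / 2 + t² / 2 + X s t` -/
def Ph (s t : ℚ[X]) : ℚ[X] := C (1 / 2) * s ^ 2 + C (1 / 2) * t ^ 2 + X * s * t

/-- the bilinear form of `Φ` -/
def Bf (s t u v : ℚ[X]) : ℚ[X] := (s + X * t) * u + (t + X * s) * v

def s0 (e : ℚ) (G : ℚ[X]) : ℚ[X] := X * (C (1 + e) + C (2 * e) * X) * G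
def s1 (e : ℚ) (G : ℚ[X]) : ℚ[X] := C (1 - e) * X * G
def a0 (e : ℚ) : ℚ[X] := X * (C (1 - e) + C (2 * e) * X)
def a1 (e : ℚ) : ℚ[X] := -(C (1 + e) * X)
def t0 (e : ℚ) : ℚ := -1 / (2 - 2 * e)
def tau (e : ℚ) (w : ℚ[X]) : ℚ := -(w.eval (-1)) / (1 - e)
def c0 (e : ℚ) (w : ℚ[X]) : ℚ[X] :=
  C (1 / (1 + e)) * X * ((X - 1) * w - (C (1 - e) + C (2 * e) * X) * C (tau e w))
def c1 (e : ℚ) (w : ℚ[X]) : ℚ[X] := C (tau e w) * X
def tt (e : ℚ) (th : ℚ[X]) (b : ℚ) : ℚ[X] := C (t0 e) + C b * ((1 + X) * th)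
def S0 (e : ℚ) (G th w : ℚ[X]) (ν b : ℚ) : ℚ[X] :=
  C (ν ^ 2 - 1) * s0 e G + C (ν - 1) * (a0 e * tt e th b) + (-X + C (b ^ 2) * c0 e w)
def S1 (e : ℚ) (G th w : ℚ[X]) (ν b : ℚ) : ℚ[X] :=
  C (ν ^ 2 - 1) * s1 e G + C (ν - 1) * (a1 e * tt e th b) + C (b ^ 2) * c1 e w
def PP (e κ : ℚ) (G : ℚ[X]) (ν : ℚ) : ℚ[X] :=
  C (ν ^ 2 - 1) * (X * (1 + X) * (C (1 + e ^ 2) + C (2 * e) * X) * G ^ 2
    * (C κ * (1 - X) + C (ν ^ 2) * X))
def W0 (S T : ℚ[X]) : ℚ[X] :=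
  C (1 / 2) * S ^ 2 + C (1 / 2) * T ^ 2 + X * (1 + S) * (1 + T) + L S + L T

lemma two_half : (2 : ℚ[X]) * C (1 / 2) = 1 := by
  have h : (2 : ℚ[X]) = C 2 := rfl
  rw [h, ← C_mul]; norm_num

lemma phi_s (e : ℚ) (G : ℚ[X]) :
    Ph (s0 e G) (s1 e G) = X ^ 2 * (1 + X) * (C (1 + e ^ 2) + C (2 * e) * X) * G ^ 2 := by
  have h2 := two_half
  simp only [Ph, s0, s1, map_add, map_sub, map_mul, map_one, map_pow, C_ofNat] at *
  generalize hc : (C (1 / 2) : ℚ[X]) = c at *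
  linear_combination (X ^ 2 * (1 + X) * (1 + (C e) ^ 2 + 2 * C e * X) * G ^ 2
    - X * (X * (1 + C e + 2 * C e * X) * G) * ((1 - C e) * X * G)) * h2

lemma bf_s (e : ℚ) (G t : ℚ[X]) : Bf (s0 e G) (s1 e G) (a0 e * t) (a1 e * t) = 0 := by
  simp only [Bf, s0, s1, a0, a1, map_add, map_sub, map_mul, map_one, C_ofNat]
  ring

lemma phi_a (e : ℚ) (t : ℚ[X]) : Ph (a0 e * t) (a1 e * t)
    = X ^ 2 * (1 - X) * (C (1 + e ^ 2) + C (2 * e) * X) * t ^ 2 := by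
  have h2 := two_half
  simp only [Ph, a0, a1, map_add, map_sub, map_mul, map_one, map_pow, C_ofNat] at *
  generalize hc : (C (1 / 2) : ℚ[X]) = c at *
  linear_combination (X ^ 2 * (1 - X) * (1 + (C e) ^ 2 + 2 * C e * X) * t ^ 2
    - X * (X * (1 - C e + 2 * C e * X) * t) * (-((1 + C e) * X) * t)) * h2

lemma bf_c (e : ℚ) (he : 1 + e ≠ 0) (G w : ℚ[X]) :
    Bf (s0 e G) (s1 e G) (c0 e w) (c1 e w) = - (X ^ 2 * (1 - X ^ 2) * (G * w)) := by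
  have h : (C (1 + e) : ℚ[X]) * C (1 / (1 + e)) = 1 := by
    rw [← C_mul, mul_one_div_cancel he, C_1]
  simp only [Bf, s0, s1, c0, c1, map_add, map_sub, map_mul, map_one, C_ofNat] at *
  generalize hc : (C (1 / (1 + e)) : ℚ[X]) = c at *
  generalize (C (tau e w) : ℚ[X]) = t at *
  linear_combination (X * (1 + X) * G * X * ((X - 1) * w - (1 - C e + 2 * C e * X) * t)) * h

/-- `E₁ = X² (1 - X²) J` -/
def E1 (e : ℚ) (G th w : ℚ[X]) : ℚ[X] := X ^ 2 * (1 - X ^ 2)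
  * (G * w - (1 + X) * (C (1 + e ^ 2) + C (2 * e) * X) * th ^ 2)

theorem expand (e κ : ℚ) (he : 1 + e ≠ 0) (G th w : ℚ[X]) :
    ∃ E2 E3 : ℚ[X], ∀ b : ℚ, ∃ U V : ℚ[X], ∀ ν : ℚ,
      PP e κ G ν - W0 (S0 e G th w ν b) (S1 e G th w ν b) =
        C (ν ^ 2) * (C (b ^ 2) * E1 e G th w + C b * E2 + E3) + C ν * U + V := by
  have p1 := phi_s e G
  have p2 := bf_c e he G w
  have p4 := phi_a e ((1 + X) * th)
  refine ⟨-Bf (a0 e * C (t0 e)) (a1 e * C (t0 e)) (a0 e * ((1 + X) * th)) (a1 e * ((1 + X) * th)),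
    C κ * (1 - X) * (X * (1 + X) * (C (1 + e ^ 2) + C (2 * e) * X) * G ^ 2)
      + Ph (s0 e G) (s1 e G) - Bf (s0 e G) (s1 e G) (-X) 0
      - X * (s0 e G + s1 e G) - L (s0 e G) - L (s1 e G)
      - Ph (a0 e * C (t0 e)) (a1 e * C (t0 e)), fun b => ?_⟩
  have p3 := bf_s e G (tt e th b)
  set h0 := a0 e * tt e th b with hh0
  set h1 := a1 e * tt e th b with hh1
  set k0 := (-X + C (b ^ 2) * c0 e w) with hk0
  set k1 := C (b ^ 2) * c1 e w with hk1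
  set Z := C κ * (1 - X) * (X * (1 + X) * (C (1 + e ^ 2) + C (2 * e) * X) * G ^ 2)
      + Ph (s0 e G) (s1 e G) - Bf (s0 e G) (s1 e G) k0 k1
      - X * (s0 e G + s1 e G) - L (s0 e G) - L (s1 e G) with hZ
  refine ⟨2 * Ph h0 h1 - Bf h0 h1 k0 k1 - X * (h0 + h1) - L h0 - L h1,
    -Z - Ph h0 h1 - Ph k0 k1 + Bf h0 h1 k0 k1 - X + X * (h0 + h1) - X * (k0 + k1) + L h0 + L h1
      - L k0 - L k1, fun ν => ?_⟩
  have hL : ∀ (a : ℚ) (p : ℚ[X]), L (C a * p) = C a * L p := by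
    intro a p
    rw [← smul_eq_C_mul, map_smul, smul_eq_C_mul]
  have hS0 : S0 e G th w ν b = C (ν ^ 2 - 1) * s0 e G + C (ν - 1) * h0 + k0 := rfl
  have hS1 : S1 e G th w ν b = C (ν ^ 2 - 1) * s1 e G + C (ν - 1) * h1 + k1 := rfl
  have hLS0 : L (C (ν ^ 2 - 1) * s0 e G + C (ν - 1) * h0 + k0)
      = C (ν ^ 2 - 1) * L (s0 e G) + C (ν - 1) * L h0 + L k0 := by
    rw [map_add, map_add, hL, hL]
  have hLS1 : L (C (ν ^ 2 - 1) * s1 e G + C (ν - 1) * h1 + k1)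
      = C (ν ^ 2 - 1) * L (s1 e G) + C (ν - 1) * L h1 + L k1 := by
    rw [map_add, map_add, hL, hL]
  have hPP : PP e κ G ν = C (ν ^ 2 - 1) * (C κ * (1 - X) * (X * (1 + X)
      * (C (1 + e ^ 2) + C (2 * e) * X) * G ^ 2) + C (ν ^ 2) * Ph (s0 e G) (s1 e G)) := by
    rw [p1]; unfold PP; ring
  -- the form of `Z`
  have hB : Bf (s0 e G) (s1 e G) k0 k1 = Bf (s0 e G) (s1 e G) (-X) 0
      + C (b ^ 2) * Bf (s0 e G) (s1 e G) (c0 e w) (c1 e w) := by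
    rw [hk0, hk1]; unfold Bf; ring
  have hP : Ph h0 h1 = Ph (a0 e * C (t0 e)) (a1 e * C (t0 e))
      + C b * Bf (a0 e * C (t0 e)) (a1 e * C (t0 e)) (a0 e * ((1 + X) * th))
        (a1 e * ((1 + X) * th))
      + C (b ^ 2) * Ph (a0 e * ((1 + X) * th)) (a1 e * ((1 + X) * th)) := by
    have h2 := two_half
    rw [hh0, hh1]; unfold Ph Bf tt
    simp only [map_pow]
    generalize hc : (C (1 / 2) : ℚ[X]) = c at *
    linear_combination (C b * (a0 e * C (t0 e) * (a0 e * ((1 + X) * th))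
      + a1 e * C (t0 e) * (a1 e * ((1 + X) * th)))) * h2
  have hE1 : E1 e G th w = - Bf (s0 e G) (s1 e G) (c0 e w) (c1 e w)
      - Ph (a0 e * ((1 + X) * th)) (a1 e * ((1 + X) * th)) := by
    rw [p2, p4]; unfold E1; ring
  have hgen : C (1 / 2) * (C (ν ^ 2 - 1) * s0 e G + C (ν - 1) * h0 + k0) ^ 2
      + C (1 / 2) * (C (ν ^ 2 - 1) * s1 e G + C (ν - 1) * h1 + k1) ^ 2
      + X * (C (ν ^ 2 - 1) * s0 e G + C (ν - 1) * h0 + k0)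
        * (C (ν ^ 2 - 1) * s1 e G + C (ν - 1) * h1 + k1)
      = C (ν ^ 2 - 1) ^ 2 * Ph (s0 e G) (s1 e G) + C (ν - 1) ^ 2 * Ph h0 h1 + Ph k0 k1
        + C (ν ^ 2 - 1) * C (ν - 1) * Bf (s0 e G) (s1 e G) h0 h1
        + C (ν ^ 2 - 1) * Bf (s0 e G) (s1 e G) k0 k1 + C (ν - 1) * Bf h0 h1 k0 k1 := by
    have h2 := two_half
    unfold Ph Bf
    generalize hc : (C (1 / 2) : ℚ[X]) = c at *
    linear_combination (C (ν ^ 2 - 1) * C (ν - 1) * (s0 e G * h0 + s1 e G * h1)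
      + C (ν ^ 2 - 1) * (s0 e G * k0 + s1 e G * k1) + C (ν - 1) * (h0 * k0 + h1 * k1)) * h2
  rw [p3] at hgen
  have e1 : (C (ν ^ 2 - 1) : ℚ[X]) = C ν ^ 2 - 1 := by simp
  have e2 : (C (ν - 1) : ℚ[X]) = C ν - 1 := by simp
  have e3 : (C (ν ^ 2) : ℚ[X]) = C ν ^ 2 := by simp
  rw [hS0, hS1, hPP, hE1]
  unfold W0
  rw [hLS0, hLS1]
  rw [e1, e2] at hgen ⊢
  rw [e3]
  rw [hZ, hB, hP]
  rw [hB, hP] at hgen
  linear_combination -hgen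
end

end Pool.Agent.H327.WR
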