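import Pool.Agent.H327.WR.Alg

set_option autoImplicit false

open Polynomial Finset

namespace Pool.Agent.H327.WR

noncomputable section

/-- integral polynomials -/
def Zx : Subring ℚ[X] := (Polynomial.mapRingHom (Int.castRingHom ℚ)).range

lemma X_mem : (X : ℚ[X]) ∈ Zx := ⟨X, by simp⟩

lemma C_int_mem (z : ℤ) : C (z : ℚ) ∈ Zx := ⟨C z, by simp⟩

lemma C_nat_mem (z : ℕ) : C (z : ℚ) ∈ Zx := by exact_mod_cast C_int_mem z

lemma coeff_int {p : ℚ[X]} (hp : p ∈ Zx) (k : ℕ) : ∃ z : ℤ, p.coeff k = z := by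
  obtain ⟨q, rfl⟩ := hp
  exact ⟨q.coeff k, by simp⟩

lemma RT_mem {F W : ℚ[X]} (h : RT F W) : F ∈ Zx ∧ W ∈ Zx := by
  induction h with
  | pt => exact ⟨Zx.one_mem, Zx.zero_mem⟩
  | join _ _ ih1 ih2 =>
    exact ⟨Zx.add_mem ih1.1 (Zx.mul_mem X_mem ih2.1),
      Zx.add_mem (Zx.add_mem ih1.2 ih2.2) (Zx.mul_mem (Zx.mul_mem X_mem ih1.1) ih2.1)⟩

lemma RT_one {F W : ℚ[X]} (h : RT F W) : 2 * W.eval 1 + F.eval 1 = F.eval 1 ^ 2 := by
  induction h with
  | pt => simp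
  | join _ _ ih1 ih2 =>
    simp only [eval_add, eval_mul, eval_X]
    linear_combination ih1 + ih2

lemma RT_neg {F W : ℚ[X]} (h : RT F W) : 2 * W.eval (-1) + F.eval 1 = F.eval (-1) ^ 2 := by
  induction h with
  | pt => simp
  | join _ _ ih1 ih2 =>
    simp only [eval_add, eval_mul, eval_X]
    linear_combination ih1 + ih2

lemma RT_coeff {F W : ℚ[X]} (h : RT F W) :
    F.coeff 0 = 1 ∧ W.coeff 0 = 0 ∧ W.coeff 1 = F.eval 1 - 1 := by
  induction h with
  | pt => simp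
  | join _ _ ih1 ih2 =>
    refine ⟨?_, ?_, ?_⟩
    · simp [ih1.1]
    · rw [mul_assoc]; simp [ih1.2.1, ih2.2.1]
    · rw [mul_assoc]
      simp only [coeff_add, coeff_X_mul, mul_coeff_zero, eval_add, eval_mul, eval_X]
      rw [ih1.1, ih2.1, ih1.2.2, ih2.2.2]
      ring

lemma exists_den (p : ℚ[X]) : ∃ d : ℕ, 0 < d ∧ C (d : ℚ) * p ∈ Zx := by
  induction p using Polynomial.induction_on' with
  | add p q hp hq =>
    obtain ⟨d, hd, hp⟩ := hp
    obtain ⟨f, hf, hq⟩ := hq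
    refine ⟨d * f, Nat.mul_pos hd hf, ?_⟩
    have h : C ((d * f : ℕ) : ℚ) * (p + q)
        = C (f : ℚ) * (C (d : ℚ) * p) + C (d : ℚ) * (C (f : ℚ) * q) := by
      push_cast; rw [C_mul]; ring
    rw [h]
    exact Zx.add_mem (Zx.mul_mem (C_nat_mem _) hp) (Zx.mul_mem (C_nat_mem _) hq)
  | monomial n a =>
    refine ⟨a.den, a.pos, ?_⟩
    rw [← C_mul_X_pow_eq_monomial, ← mul_assoc, ← C_mul]
    have h : (a.den : ℚ) * a = a.num := by
      rw [mul_comm]; exact Rat.mul_den_eq_num a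
    rw [h]
    exact Zx.mul_mem (C_int_mem _) (Zx.pow_mem X_mem _)

/-- common denominators of a list -/
lemma exists_den_list (l : List ℚ[X]) : ∃ d : ℕ, 0 < d ∧ ∀ p ∈ l, C (d : ℚ) * p ∈ Zx := by
  induction l with
  | nil => exact ⟨1, one_pos, by simp⟩
  | cons p l ih =>
    obtain ⟨d, hd, h⟩ := ih
    obtain ⟨f, hf, hp⟩ := exists_den p
    refine ⟨d * f, Nat.mul_pos hd hf, ?_⟩
    intro q hq
    rcases List.mem_cons.mp hq with rfl | hq
    · have e : C ((d * f : ℕ) : ℚ) * q = C (d : ℚ) * (C (f : ℚ) * q) := by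
        push_cast; rw [C_mul]; ring
      rw [e]
      exact Zx.mul_mem (C_nat_mem _) hp
    · have e : C ((d * f : ℕ) : ℚ) * q = C (f : ℚ) * (C (d : ℚ) * q) := by
        push_cast; rw [C_mul]; ring
      rw [e]
      exact Zx.mul_mem (C_nat_mem _) (h q hq)

/-! ### Eventually -/

lemma ev_lin (x y z : ℚ) (hx : 0 < x) : ∀ᶠ ν : ℕ in Filter.atTop, y * ν + z ≤ x * (ν : ℚ) ^ 2 := by
  obtain ⟨N, hN⟩ := exists_nat_gt ((|y| + |z|) / x)
  filter_upwards [Filter.eventually_ge_atTop (max N 1)] with ν hν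
  have h1 : (1 : ℚ) ≤ ν := by exact_mod_cast le_trans (le_max_right _ _) hν
  have h2 : (N : ℚ) ≤ ν := by exact_mod_cast le_trans (le_max_left _ _) hν
  have h3 : (|y| + |z|) < x * ν := by
    rw [div_lt_iff₀ hx] at hN
    nlinarith
  have h4 : y * ν ≤ |y| * ν := mul_le_mul_of_nonneg_right (le_abs_self y) (by linarith)
  have h5 : z ≤ |z| * ν := by nlinarith [le_abs_self z, abs_nonneg z]
  nlinarith

lemma ev_abs (u v c : ℚ) (hc : 0 < c) : ∀ᶠ ν : ℕ in Filter.atTop,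
    |(ν : ℚ) * u + v| ≤ c * (ν : ℚ) ^ 2 := by
  filter_upwards [ev_lin c u v hc, ev_lin c (-u) (-v) hc] with ν h1 h2
  rw [abs_le]
  constructor <;> linarith

lemma tendsto_affine (M : ℕ) (hM : 0 < M) :
    Filter.Tendsto (fun t : ℕ => 1 + M * t) Filter.atTop Filter.atTop := by
  apply Filter.tendsto_atTop_mono (f := fun t : ℕ => t)
  · intro t
    nlinarith
  · exact Filter.tendsto_id

end

end Pool.Agent.H327.WR
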