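import Pool.Agent.H327.WR.Basic

set_option autoImplicit false

open Polynomial Finset

namespace Pool.Agent.H327.WR

noncomputable section

/-- coefficients of the nodal polynomial -/
lemma nd_aux (m : ℕ) (hm : 1 ≤ m) (j : ℕ) :
    (∀ k, 0 ≤ (∏ i ∈ range j, ((X : ℚ[X]) + C ((4 * m + i : ℕ) : ℚ))).coeff k) ∧
    (∀ k, (∏ i ∈ range j, ((X : ℚ[X]) + C ((4 * m + i : ℕ) : ℚ))).coeff (k + 1) * (4 * m)
      ≤ j * (∏ i ∈ range j, ((X : ℚ[X]) + C ((4 * m + i : ℕ) : ℚ))).coeff k) ∧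
    (∀ k, k ≤ j → 0 < (∏ i ∈ range j, ((X : ℚ[X]) + C ((4 * m + i : ℕ) : ℚ))).coeff k) ∧
    (∀ k, j < k → (∏ i ∈ range j, ((X : ℚ[X]) + C ((4 * m + i : ℕ) : ℚ))).coeff k = 0) := by
  have hm' : (1 : ℚ) ≤ m := by exact_mod_cast hm
  induction j with
  | zero =>
    simp only [range_zero, prod_empty]
    refine ⟨?_, ?_, ?_, ?_⟩
    · intro k
      rw [coeff_one]; split_ifs <;> norm_num
    · intro k
      rw [coeff_one]; simp
    · intro k hk
      have : k = 0 := by omega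
      subst this; simp
    · intro k hk
      rw [coeff_one, if_neg (by omega)]
  | succ j ih =>
    obtain ⟨h1, h2, h3, h4⟩ := ih
    rw [prod_range_succ]
    set p := ∏ i ∈ range j, ((X : ℚ[X]) + C ((4 * m + i : ℕ) : ℚ)) with hp
    set a : ℚ := ((4 * m + j : ℕ) : ℚ) with ha
    have ha4 : 4 * (m : ℚ) ≤ a := by rw [ha]; push_cast; linarith [(Nat.cast_nonneg j : (0 : ℚ) ≤ j)]
    have c0 : (p * (X + C a)).coeff 0 = a * p.coeff 0 := by
      rw [mul_coeff_zero]; simp [mul_comm]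
    have cs : ∀ k, (p * (X + C a)).coeff (k + 1) = p.coeff k + a * p.coeff (k + 1) := by
      intro k
      rw [mul_add, coeff_add, coeff_mul_X, mul_comm p (C a), coeff_C_mul]
    have ha0 : 0 < a := by linarith
    refine ⟨?_, ?_, ?_, ?_⟩
    · intro k
      rcases k with _ | k
      · rw [c0]; exact mul_nonneg ha0.le (h1 0)
      · rw [cs]; exact add_nonneg (h1 k) (mul_nonneg ha0.le (h1 _))
    · intro k
      rw [cs]
      have e1 : a * (p.coeff (k + 1) * (4 * m)) ≤ a * (j * p.coeff k) :=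
        mul_le_mul_of_nonneg_left (h2 k) ha0.le
      have e2 : 4 * (m : ℚ) * p.coeff k ≤ a * p.coeff k := mul_le_mul_of_nonneg_right ha4 (h1 k)
      have e3 : a * p.coeff k ≤ (p * (X + C a)).coeff k := by
        rcases k with _ | k
        · rw [c0]
        · rw [cs]; linarith [h1 k]
      push_cast
      have e4 : ((j : ℚ) + 1) * (a * p.coeff k) ≤ ((j : ℚ) + 1) * (p * (X + C a)).coeff k :=
        mul_le_mul_of_nonneg_left e3 (by positivity)
      nlinarith
    · intro k hk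
      rcases k with _ | k
      · rw [c0]; exact mul_pos ha0 (h3 0 (by omega))
      · rw [cs]; linarith [h3 k (by omega), mul_nonneg ha0.le (h1 (k + 1))]
    · intro k hk
      rcases k with _ | k
      · omega
      · rw [cs, h4 k (by omega), h4 (k + 1) (by omega)]; ring

/-- the properties of `G` -/
structure Good (m : ℕ) (G : ℚ[X]) : Prop where
  nonneg : ∀ k, 0 ≤ G.coeff k
  quarter : ∀ k, G.coeff (k + 1) ≤ G.coeff k / 4
  pos : ∀ k, k ≤ m → 0 < G.coeff k
  zero : ∀ k, m < k → G.coeff k = 0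

lemma good_nd (m : ℕ) (hm : 1 ≤ m) (c : ℚ) (hc : 0 < c) : Good m (C c * Nd m) := by
  obtain ⟨h1, h2, h3, h4⟩ := nd_aux m hm m
  have hm' : (1 : ℚ) ≤ m := by exact_mod_cast hm
  unfold Nd
  refine ⟨?_, ?_, ?_, ?_⟩
  · intro k; rw [coeff_C_mul]; exact mul_nonneg hc.le (h1 k)
  · intro k
    rw [coeff_C_mul, coeff_C_mul]
    have := h2 k
    have h5 : (m : ℚ) * ((∏ i ∈ range m, ((X : ℚ[X]) + C ((4 * m + i : ℕ) : ℚ))).coeff (k + 1) * 4)
        ≤ m * (∏ i ∈ range m, ((X : ℚ[X]) + C ((4 * m + i : ℕ) : ℚ))).coeff k := by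
      nlinarith
    have h6 := le_of_mul_le_mul_left h5 (by linarith)
    have h7 := mul_le_mul_of_nonneg_left h6 hc.le
    linarith
  · intro k hk; rw [coeff_C_mul]; exact mul_pos hc (h3 k hk)
  · intro k hk; rw [coeff_C_mul, h4 k hk, mul_zero]

lemma s0_coeff_zero (e : ℚ) (G : ℚ[X]) : (s0 e G).coeff 0 = 0 := by
  unfold s0; rw [mul_assoc]; simp

lemma s0_coeff_one (e : ℚ) (G : ℚ[X]) : (s0 e G).coeff 1 = (1 + e) * G.coeff 0 := by
  unfold s0; rw [mul_assoc, coeff_X_mul, mul_coeff_zero]; simp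

lemma s0_coeff (e : ℚ) (G : ℚ[X]) (k : ℕ) :
    (s0 e G).coeff (k + 2) = (1 + e) * G.coeff (k + 1) + 2 * e * G.coeff k := by
  unfold s0
  rw [mul_assoc, coeff_X_mul, add_mul, coeff_add, coeff_C_mul, mul_assoc, coeff_C_mul, coeff_X_mul]

lemma s1_coeff_zero (e : ℚ) (G : ℚ[X]) : (s1 e G).coeff 0 = 0 := by
  unfold s1; rw [mul_assoc, coeff_C_mul]; simp

lemma s1_coeff (e : ℚ) (G : ℚ[X]) (k : ℕ) :
    (s1 e G).coeff (k + 1) = (1 - e) * G.coeff k := by
  unfold s1
  rw [mul_assoc, coeff_C_mul, coeff_X_mul]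

lemma s0_dec {m : ℕ} {G : ℚ[X]} (h : Good m G) {e : ℚ} (he : 0 < e) (he' : e ≤ 1 / 20) (k : ℕ)
    (h1 : 1 ≤ k) (h2 : k ≤ m + 2) : (s0 e G).coeff (k + 1) < (s0 e G).coeff k := by
  obtain ⟨k, rfl⟩ : ∃ j, k = j + 1 := ⟨k - 1, by omega⟩
  have hq := h.quarter
  have hn := h.nonneg
  rcases k with _ | k
  · rw [s0_coeff e G 0, s0_coeff_one]
    have := hq 0
    have hp := h.pos 0 (by omega)
    nlinarith [hn 1]
  · rw [s0_coeff e G (k + 1), s0_coeff e G k]
    rcases Nat.lt_or_ge m (k + 1) with hk | hk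
    · rw [h.zero (k + 1 + 1) (by omega), h.zero (k + 1) hk]
      have := h.pos k (by omega)
      nlinarith
    · have hp := h.pos (k + 1) hk
      have := hq (k + 1)
      nlinarith [hn (k + 1 + 1), hn k]

lemma s1_dec {m : ℕ} {G : ℚ[X]} (h : Good m G) {e : ℚ} (he' : e ≤ 1 / 20) (k : ℕ)
    (h1 : 1 ≤ k) (h2 : k ≤ m + 1) : (s1 e G).coeff (k + 1) < (s1 e G).coeff k := by
  obtain ⟨k, rfl⟩ : ∃ j, k = j + 1 := ⟨k - 1, by omega⟩
  rw [s1_coeff e G (k + 1), s1_coeff e G k]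
  have := h.quarter k
  have hp := h.pos k (by omega)
  nlinarith [h.nonneg (k + 1)]

lemma natDegree_G {m : ℕ} {G : ℚ[X]} (h : Good m G) : G.natDegree ≤ m :=
  natDegree_le_iff_coeff_eq_zero.mpr fun k hk => h.zero k hk

lemma deg_lin (a b : ℚ) : (C a + C b * X : ℚ[X]).natDegree ≤ 1 := by
  compute_degree

lemma deg_tt (e : ℚ) (th : ℚ[X]) (b : ℚ) (m : ℕ) (hm : 1 ≤ m) (h : th.natDegree ≤ m - 1) :
    (tt e th b).natDegree ≤ m := by
  unfold tt
  refine natDegree_add_le_of_degree_le (by simp) ?_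
  refine (natDegree_C_mul_le _ _).trans ?_
  refine natDegree_mul_le.trans ?_
  have h1 : (1 + X : ℚ[X]).natDegree ≤ 1 := by compute_degree
  omega

lemma deg_S0 {m : ℕ} (hm : 1 ≤ m) {G : ℚ[X]} (hG : Good m G) (e : ℚ) (th w : ℚ[X]) (ν b : ℚ)
    (hth : th.natDegree ≤ m - 1) (hw : w.natDegree ≤ m) :
    (S0 e G th w ν b).natDegree ≤ m + 2 := by
  have d1 := natDegree_G hG
  have d2 := deg_tt e th b m hm hth
  have d3 : (X - 1 : ℚ[X]).natDegree ≤ 1 := by compute_degree
  unfold S0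
  refine natDegree_add_le_of_degree_le (natDegree_add_le_of_degree_le ?_ ?_)
    (natDegree_add_le_of_degree_le ?_ ?_)
  · refine (natDegree_C_mul_le _ _).trans ?_
    unfold s0
    refine natDegree_mul_le.trans ?_
    have : (X * (C (1 + e) + C (2 * e) * X) : ℚ[X]).natDegree ≤ 2 := by
      refine natDegree_mul_le.trans ?_
      have := deg_lin (1 + e) (2 * e)
      have h : (X : ℚ[X]).natDegree = 1 := natDegree_X
      omega
    omega
  · refine (natDegree_C_mul_le _ _).trans ?_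
    unfold a0
    refine natDegree_mul_le.trans ?_
    have : (X * (C (1 - e) + C (2 * e) * X) : ℚ[X]).natDegree ≤ 2 := by
      refine natDegree_mul_le.trans ?_
      have := deg_lin (1 - e) (2 * e)
      have h : (X : ℚ[X]).natDegree = 1 := natDegree_X
      omega
    omega
  · rw [natDegree_neg, natDegree_X]; omega
  · refine (natDegree_C_mul_le _ _).trans ?_
    unfold c0
    rw [mul_assoc]
    refine (natDegree_C_mul_le _ _).trans ?_
    refine natDegree_mul_le.trans ?_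
    have h : (X : ℚ[X]).natDegree = 1 := natDegree_X
    have h2 : ((X - 1) * w - (C (1 - e) + C (2 * e) * X) * C (tau e w) : ℚ[X]).natDegree ≤ m + 1 := by
      refine (natDegree_sub_le_of_le (m := m + 1) (n := m + 1) ?_ ?_).trans (by simp)
      · refine natDegree_mul_le.trans ?_; omega
      · refine natDegree_mul_le.trans ?_
        have := deg_lin (1 - e) (2 * e)
        rw [natDegree_C]; omega
    omega

lemma deg_S1 {m : ℕ} (hm : 1 ≤ m) {G : ℚ[X]} (hG : Good m G) (e : ℚ) (th w : ℚ[X]) (ν b : ℚ)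
    (hth : th.natDegree ≤ m - 1) :
    (S1 e G th w ν b).natDegree ≤ m + 1 := by
  have d1 := natDegree_G hG
  have d2 := deg_tt e th b m hm hth
  have h : (X : ℚ[X]).natDegree = 1 := natDegree_X
  unfold S1
  refine natDegree_add_le_of_degree_le (natDegree_add_le_of_degree_le ?_ ?_) ?_
  · refine (natDegree_C_mul_le _ _).trans ?_
    unfold s1
    rw [mul_assoc]
    refine (natDegree_C_mul_le _ _).trans ?_
    refine natDegree_mul_le.trans ?_
    omega
  · refine (natDegree_C_mul_le _ _).trans ?_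
    unfold a1
    rw [neg_mul, natDegree_neg, mul_assoc]
    refine (natDegree_C_mul_le _ _).trans ?_
    refine natDegree_mul_le.trans ?_
    omega
  · refine (natDegree_C_mul_le _ _).trans ?_
    unfold c1
    refine (natDegree_C_mul_le _ _).trans ?_
    omega

lemma S0_zero (e : ℚ) (G th w : ℚ[X]) (ν b : ℚ) : (S0 e G th w ν b).coeff 0 = 0 := by
  rw [coeff_zero_eq_eval_zero]
  simp [S0, s0, a0, c0]

lemma S1_zero (e : ℚ) (G th w : ℚ[X]) (ν b : ℚ) : (S1 e G th w ν b).coeff 0 = 0 := by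
  rw [coeff_zero_eq_eval_zero]
  simp [S1, s1, a1, c1]

lemma F_one (e : ℚ) (he : 1 + e ≠ 0) (G th w : ℚ[X]) (hG : 2 * (1 + e) * G.eval 1 = 1) (ν b : ℚ) :
    (1 + S0 e G th w ν b + X * (1 + S1 e G th w ν b)).eval 1 = ν ^ 2 := by
  simp only [S0, s0, a0, c0, S1, s1, a1, c1, eval_add, eval_mul, eval_sub, eval_neg, eval_X,
    eval_C, eval_one]
  field_simp
  linear_combination (ν ^ 2 - 1) * (1 + e) * hG

lemma F_neg (e : ℚ) (he : 1 + e ≠ 0) (he' : 1 - e ≠ 0) (G th w : ℚ[X]) (ν b : ℚ) :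
    (1 + S0 e G th w ν b + X * (1 + S1 e G th w ν b)).eval (-1) = ν := by
  have h2 : 2 - 2 * e ≠ 0 := by intro h; apply he'; linarith
  simp only [S0, s0, a0, c0, S1, s1, a1, c1, tt, t0, tau, eval_add, eval_mul, eval_sub, eval_neg,
    eval_X, eval_C, eval_one]
  field_simp
  ring

lemma PP_one (e κ : ℚ) (G : ℚ[X]) (hG : 2 * (1 + e) * G.eval 1 = 1) (ν : ℚ) :
    (PP e κ G ν).eval 1 = ν ^ 2 * (ν ^ 2 - 1) / 2 := by
  simp only [PP, eval_add, eval_mul, eval_sub, eval_X, eval_C, eval_one, eval_pow]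
  have : (2 * (1 + e) * G.eval 1) ^ 2 = 1 := by rw [hG]; norm_num
  linear_combination (ν ^ 2 - 1) * ν ^ 2 / 2 * this

lemma PP_neg (e κ : ℚ) (G : ℚ[X]) (ν : ℚ) : (PP e κ G ν).eval (-1) = 0 := by
  simp [PP]

lemma PP_zero (e κ : ℚ) (G : ℚ[X]) (ν : ℚ) : (PP e κ G ν).coeff 0 = 0 := by
  rw [coeff_zero_eq_eval_zero]
  simp [PP]

lemma PP_coeff_one (e κ : ℚ) (G : ℚ[X]) (hκ : κ * (1 + e ^ 2) * G.eval 0 ^ 2 = 1) (ν : ℚ) :
    (PP e κ G ν).coeff 1 = ν ^ 2 - 1 := by
  have h : PP e κ G ν = X * (C (ν ^ 2 - 1) * ((1 + X) * (C (1 + e ^ 2) + C (2 * e) * X) * G ^ 2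
    * (C κ * (1 - X) + C (ν ^ 2) * X))) := by unfold PP; ring
  rw [h, coeff_X_mul, coeff_zero_eq_eval_zero]
  simp only [eval_add, eval_mul, eval_sub, eval_X, eval_C, eval_one, eval_pow]
  linear_combination (ν ^ 2 - 1) * hκ

lemma deg_PP {m : ℕ} {G : ℚ[X]} (hG : Good m G) (e κ ν : ℚ) :
    (PP e κ G ν).natDegree ≤ 2 * m + 4 := by
  have d1 := natDegree_G hG
  have h : (X : ℚ[X]).natDegree = 1 := natDegree_X
  have h1 : (1 + X : ℚ[X]).natDegree ≤ 1 := by compute_degree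
  have h2 : (C κ * (1 - X) + C (ν ^ 2) * X : ℚ[X]).natDegree ≤ 1 := by compute_degree
  have h3 := deg_lin (1 + e ^ 2) (2 * e)
  have h4 : (G ^ 2).natDegree ≤ 2 * m := by
    refine natDegree_pow_le.trans ?_; omega
  unfold PP
  refine (natDegree_C_mul_le _ _).trans ?_
  refine natDegree_mul_le.trans ?_
  have a1 : (X * (1 + X) : ℚ[X]).natDegree ≤ 2 := natDegree_mul_le.trans (by omega)
  have a2 : (X * (1 + X) * (C (1 + e ^ 2) + C (2 * e) * X) : ℚ[X]).natDegree ≤ 3 :=
    natDegree_mul_le.trans (by omega)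
  have a3 : (X * (1 + X) * (C (1 + e ^ 2) + C (2 * e) * X) * G ^ 2 : ℚ[X]).natDegree
      ≤ 3 + 2 * m := natDegree_mul_le.trans (by omega)
  omega

lemma deg_fp (k : ℕ) : (fp k).natDegree ≤ k := by
  unfold fp
  refine natDegree_sum_le_of_forall_le _ _ ?_
  intro i hi
  rw [natDegree_X_pow]
  have := mem_range.mp hi
  omega

lemma deg_gp (k : ℕ) : (gp k).natDegree ≤ 2 * k := by
  induction k with
  | zero => simp [gp]
  | succ k ih =>
    have h1 := deg_fp k
    have h : (X : ℚ[X]).natDegree = 1 := natDegree_X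
    have h2 : (1 + fp k).natDegree ≤ k := natDegree_add_le_of_degree_le (by simp) h1
    have h3 : (X * (1 + fp k)).natDegree ≤ k + 1 := natDegree_mul_le.trans (by omega)
    unfold gp
    refine (natDegree_sub_le_of_le (m := 2 * (k + 1)) (n := 2 * (k + 1)) ?_ ?_).trans (by simp)
    · refine natDegree_add_le_of_degree_le (natDegree_add_le_of_degree_le (by omega) ?_) (by omega)
      refine (natDegree_C_mul_le _ _).trans (natDegree_pow_le.trans (by omega))
    · refine (natDegree_C_mul_le _ _).trans (natDegree_pow_le.trans (by omega))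

lemma deg_lam (k : ℕ) : (lam k).natDegree ≤ 2 * k := by
  unfold lam
  refine (natDegree_sub_le_of_le (m := 2 * k) (n := 2 * k) (deg_gp k)
    ((deg_gp (k - 1)).trans (by omega))).trans (by simp)

lemma deg_L (p : ℚ[X]) (d : ℕ) (hp : p.natDegree ≤ d) : (L p).natDegree ≤ 2 * d := by
  unfold L
  rw [Polynomial.lsum_apply, Polynomial.sum_def]
  refine natDegree_sum_le_of_forall_le _ _ ?_
  intro k hk
  have h1 : k ≤ p.natDegree := le_natDegree_of_mem_supp k hk
  simp only [LinearMap.toSpanSingleton_apply]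
  refine (natDegree_smul_le _ _).trans ?_
  have := deg_lam k
  omega

lemma deg_W0 {m : ℕ} {S T : ℚ[X]} (hS : S.natDegree ≤ m + 2) (hT : T.natDegree ≤ m + 1) :
    (W0 S T).natDegree ≤ 2 * m + 4 := by
  have h : (X : ℚ[X]).natDegree = 1 := natDegree_X
  have h1 : (1 + S).natDegree ≤ m + 2 := natDegree_add_le_of_degree_le (by simp) hS
  have h2 : (1 + T).natDegree ≤ m + 1 := natDegree_add_le_of_degree_le (by simp) hT
  unfold W0
  refine natDegree_add_le_of_degree_le (natDegree_add_le_of_degree_le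
    (natDegree_add_le_of_degree_le (natDegree_add_le_of_degree_le ?_ ?_) ?_) ?_) ?_
  · exact (natDegree_C_mul_le _ _).trans (natDegree_pow_le.trans (by omega))
  · exact (natDegree_C_mul_le _ _).trans (natDegree_pow_le.trans (by omega))
  · have : (X * (1 + S)).natDegree ≤ m + 3 := natDegree_mul_le.trans (by omega)
    exact natDegree_mul_le.trans (by omega)
  · exact (deg_L S _ hS).trans (by omega)
  · exact (deg_L T _ hT).trans (by omega)

end

end Pool.Agent.H327.WR
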