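import Pool.Agent.H327.WR.Stm

/-! WR, part G: gadget branches and filling with paths. -/

set_option autoImplicit false

open Polynomial Finset

namespace Pool.Agent.H331.WR

open Pool.Agent.H327.WR

noncomputable section

/-! ## Branches and collections -/

theorem plant {f g : ℚ[X]} (h : Br f g) :
    Br (X * (1 + f)) (g + C (1 / 2) * f ^ 2 + X * (1 + f) - C (1 / 2) * (X * (1 + f)) ^ 2) := by
  obtain ⟨F, W, hRT, rfl, rfl⟩ := h
  refine ⟨1 + X * F, 0 + W + X * 1 * F, RT.join RT.pt hRT, rfl, ?_⟩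
  ring

theorem leaf : Br X (X - C (1 / 2) * X ^ 2) :=
  ⟨1, 0, RT.pt, by ring, by ring⟩

theorem Rt_RT {S G : ℚ[X]} (h : Rt S G) : RT (1 + S) (C (1 / 2) * S ^ 2 + G) := by
  induction h with
  | nil =>
    have h1 : RT 1 0 := RT.pt
    have e1 : (1 : ℚ[X]) + 0 = 1 := by ring
    have e2 : C (1 / 2) * (0 : ℚ[X]) ^ 2 + 0 = 0 := by ring
    rw [e1, e2]
    exact h1
  | @cons S G f g _ hbr ih =>
    obtain ⟨F', W', hRT, rfl, rfl⟩ := hbr
    have h1 := RT.join ih hRT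
    have e1 : 1 + S + X * F' = 1 + (S + X * F') := by ring
    have e2 : C (1 / 2) * S ^ 2 + G + W' + X * (1 + S) * F' =
        C (1 / 2) * (S + X * F') ^ 2 + (G + (W' + X * F' - C (1 / 2) * (X * F') ^ 2)) := by
      apply Polynomial.funext
      intro x
      simp only [eval_add, eval_sub, eval_mul, eval_pow, eval_C, eval_X, eval_one]
      ring
    rw [e1, e2] at h1
    exact h1

theorem Rt_add {S G S' G' : ℚ[X]} (h : Rt S G) (h' : Rt S' G') : Rt (S + S') (G + G') := by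
  induction h' with
  | nil =>
    rw [add_zero, add_zero]
    exact h
  | cons _ hbr ih =>
    rw [← add_assoc, ← add_assoc]
    exact Rt.cons ih hbr

theorem Rt_nsmul {S G : ℚ[X]} (h : Rt S G) (n : ℕ) : Rt (C (n : ℚ) * S) (C (n : ℚ) * G) := by
  induction n with
  | zero =>
    rw [Nat.cast_zero, C_0, zero_mul, zero_mul]
    exact Rt.nil
  | succ n ih =>
    have h1 := Rt_add ih h
    have e1 : C ((n + 1 : ℕ) : ℚ) * S = C (n : ℚ) * S + S := by
      push_cast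
      rw [C_add, C_1]
      ring
    have e2 : C ((n + 1 : ℕ) : ℚ) * G = C (n : ℚ) * G + G := by
      push_cast
      rw [C_add, C_1]
      ring
    rw [e1, e2]
    exact h1

theorem Rt_of_Br {f g : ℚ[X]} (h : Br f g) : Rt f g := by
  have h1 := Rt.cons Rt.nil h
  rwa [zero_add, zero_add] at h1

theorem Br_of_Rt {S G : ℚ[X]} (h : Rt S G) :
    Br (X * (1 + S)) (C (1 / 2) * S ^ 2 + G + X * (1 + S) - C (1 / 2) * (X * (1 + S)) ^ 2) :=
  ⟨1 + S, C (1 / 2) * S ^ 2 + G, Rt_RT h, rfl, rfl⟩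

/-! ## Paths -/

theorem fp_zero : fp 0 = 0 := by
  unfold fp
  rw [Finset.sum_range_zero]

theorem fp_succ (k : ℕ) : fp (k + 1) = fp k + X ^ (k + 1) := by
  unfold fp
  rw [Finset.sum_range_succ]

theorem X_fp (k : ℕ) : X * (1 + fp k) = fp (k + 1) := by
  induction k with
  | zero =>
    rw [fp_succ, fp_zero]
    ring
  | succ k ih =>
    have h2 := fp_succ k
    rw [fp_succ (k + 1)]
    linear_combination X * h2 + ih

theorem gp_succ (k : ℕ) : gp (k + 1) = gp k + C (1 / 2) * fp k ^ 2 + fp (k + 1) -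
    C (1 / 2) * fp (k + 1) ^ 2 := by
  rw [gp, X_fp]

theorem lam_succ (k : ℕ) : lam (k + 1) = C (1 / 2) * fp k ^ 2 + fp (k + 1) -
    C (1 / 2) * fp (k + 1) ^ 2 := by
  rw [lam, Nat.add_sub_cancel, gp_succ]
  ring

theorem path (k : ℕ) : Br (fp (k + 1)) (gp (k + 1)) := by
  induction k with
  | zero =>
    have h := leaf
    have e1 : fp (0 + 1) = X := by
      rw [fp_succ, fp_zero]
      ring
    have e2 : gp (0 + 1) = X - C (1 / 2) * X ^ 2 := by
      rw [gp_succ, gp, e1, fp_zero]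
      ring
    rw [e1, e2]
    exact h
  | succ k ih =>
    have h := plant ih
    rw [X_fp] at h
    rw [gp_succ (k + 1)]
    exact h

theorem L_X_pow (k : ℕ) : L (X ^ k) = lam k := by
  unfold L
  rw [Polynomial.lsum_apply, Polynomial.X_pow_eq_monomial, Polynomial.sum_monomial_index]
  · rw [LinearMap.toSpanSingleton_apply, one_smul]
  · rw [LinearMap.map_zero]

theorem L_C_mul (c : ℚ) (p : ℚ[X]) : L (C c * p) = C c * L p := by
  rw [C_mul', map_smul, C_mul']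

theorem L_fp (k : ℕ) : L (fp k) = gp k := by
  induction k with
  | zero => rw [fp_zero, map_zero, gp]
  | succ k ih =>
    rw [fp_succ, map_add, ih, L_X_pow, lam, Nat.add_sub_cancel]
    ring

/-! ## Double stars -/

theorem star (j B K : ℕ) : Br (fp (j + 2) + C (B : ℚ) * X ^ (j + 2) + C (K : ℚ) * X ^ (j + 3))
    (gp (j + 2) + C (B : ℚ) * lam (j + 2) + C (K : ℚ) * lam (j + 3)
      + C ((B : ℚ) * (B + 1) / 2) * (X ^ 2 - X ^ (2 * (j + 2)))
      + C ((B : ℚ) * K) * (X ^ 3 - X ^ (2 * (j + 2) + 1))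
      + C ((K : ℚ) * (K - 1) / 2) * (X ^ 2 - X ^ (2 * (j + 2) + 2))) := by
  induction j with
  | zero =>
    have h1 := Br_of_Rt (Rt_nsmul (Rt_of_Br leaf) K)
    have h2 := Br_of_Rt (Rt_add (Rt_nsmul (Rt_of_Br leaf) B) (Rt_of_Br h1))
    have f1 : fp 1 = X := by
      rw [fp_succ, fp_zero]
      ring
    have f2 : fp 2 = X + X ^ 2 := by
      rw [fp_succ, f1]
    have f3 : fp 3 = X + X ^ 2 + X ^ 3 := by
      rw [fp_succ, f2]
    have e1 : X * (1 + (C (B : ℚ) * X + X * (1 + C (K : ℚ) * X))) =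
        fp (0 + 2) + C (B : ℚ) * X ^ (0 + 2) + C (K : ℚ) * X ^ (0 + 3) := by
      rw [zero_add, zero_add, f2]
      ring
    rw [e1] at h2
    have e2 : C (1 / 2) * (C (B : ℚ) * X + X * (1 + C (K : ℚ) * X)) ^ 2 +
        (C (B : ℚ) * (X - C (1 / 2) * X ^ 2) +
          (C (1 / 2) * (C (K : ℚ) * X) ^ 2 + C (K : ℚ) * (X - C (1 / 2) * X ^ 2) +
              X * (1 + C (K : ℚ) * X) - C (1 / 2) * (X * (1 + C (K : ℚ) * X)) ^ 2)) +
        (fp (0 + 2) + C (B : ℚ) * X ^ (0 + 2) + C (K : ℚ) * X ^ (0 + 3)) -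
        C (1 / 2) * (fp (0 + 2) + C (B : ℚ) * X ^ (0 + 2) + C (K : ℚ) * X ^ (0 + 3)) ^ 2 =
        (gp (0 + 2) + C (B : ℚ) * lam (0 + 2) + C (K : ℚ) * lam (0 + 3)
      + C ((B : ℚ) * (B + 1) / 2) * (X ^ 2 - X ^ (2 * (0 + 2)))
      + C ((B : ℚ) * K) * (X ^ 3 - X ^ (2 * (0 + 2) + 1))
      + C ((K : ℚ) * (K - 1) / 2) * (X ^ 2 - X ^ (2 * (0 + 2) + 2))) := by
      rw [zero_add, zero_add, lam_succ 1, lam_succ 2, gp_succ 1, gp_succ 0, gp, zero_add, f3, f2,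
        f1, fp_zero]
      apply Polynomial.funext
      intro x
      simp only [eval_add, eval_sub, eval_mul, eval_pow, eval_C, eval_X, eval_one, eval_zero]
      ring
    rw [e2] at h2
    exact h2
  | succ j ih =>
    have h := plant ih
    have e1 : X * (1 + (fp (j + 2) + C (B : ℚ) * X ^ (j + 2) + C (K : ℚ) * X ^ (j + 3))) =
        fp (j + 1 + 2) + C (B : ℚ) * X ^ (j + 1 + 2) + C (K : ℚ) * X ^ (j + 1 + 3) := by
      have e3 : fp (j + 1 + 2) = X * (1 + fp (j + 2)) := by rw [X_fp]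
      rw [e3]
      ring
    rw [e1] at h
    have e4 : fp (j + 2) = fp (j + 1) + X ^ (j + 2) := fp_succ (j + 1)
    have e5 : fp (j + 3) = fp (j + 1) + X ^ (j + 2) + X ^ (j + 3) := by
      rw [fp_succ (j + 2), e4]
    have e6 : fp (j + 4) = fp (j + 1) + X ^ (j + 2) + X ^ (j + 3) + X ^ (j + 4) := by
      rw [fp_succ (j + 3), e5]
    have e7 : lam (j + 2) = C (1 / 2) * fp (j + 1) ^ 2 + fp (j + 2) - C (1 / 2) * fp (j + 2) ^ 2 :=
      lam_succ (j + 1)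
    have e8 : lam (j + 3) = C (1 / 2) * fp (j + 2) ^ 2 + fp (j + 3) - C (1 / 2) * fp (j + 3) ^ 2 :=
      lam_succ (j + 2)
    have e9 : lam (j + 4) = C (1 / 2) * fp (j + 3) ^ 2 + fp (j + 4) - C (1 / 2) * fp (j + 4) ^ 2 :=
      lam_succ (j + 3)
    have e10 : gp (j + 3) = gp (j + 2) + C (1 / 2) * fp (j + 2) ^ 2 + fp (j + 3) -
      C (1 / 2) * fp (j + 3) ^ 2 := gp_succ (j + 2)
    have e2 : gp (j + 2) + C (B : ℚ) * lam (j + 2) + C (K : ℚ) * lam (j + 3)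
      + C ((B : ℚ) * (B + 1) / 2) * (X ^ 2 - X ^ (2 * (j + 2)))
      + C ((B : ℚ) * K) * (X ^ 3 - X ^ (2 * (j + 2) + 1))
      + C ((K : ℚ) * (K - 1) / 2) * (X ^ 2 - X ^ (2 * (j + 2) + 2)) +
      C (1 / 2) * (fp (j + 2) + C (B : ℚ) * X ^ (j + 2) + C (K : ℚ) * X ^ (j + 3)) ^ 2 +
      (fp (j + 1 + 2) + C (B : ℚ) * X ^ (j + 1 + 2) + C (K : ℚ) * X ^ (j + 1 + 3)) -
      C (1 / 2) * (fp (j + 1 + 2) + C (B : ℚ) * X ^ (j + 1 + 2) + C (K : ℚ) * X ^ (j + 1 + 3)) ^ 2 =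
      (gp (j + 1 + 2) + C (B : ℚ) * lam (j + 1 + 2) + C (K : ℚ) * lam (j + 1 + 3)
      + C ((B : ℚ) * (B + 1) / 2) * (X ^ 2 - X ^ (2 * (j + 1 + 2)))
      + C ((B : ℚ) * K) * (X ^ 3 - X ^ (2 * (j + 1 + 2) + 1))
      + C ((K : ℚ) * (K - 1) / 2) * (X ^ 2 - X ^ (2 * (j + 1 + 2) + 2))) := by
      rw [show j + 1 + 2 = j + 3 by ring, show j + 1 + 3 = j + 4 by ring, e10, e9, e8, e7, e6, e5,
        e4]
      apply Polynomial.funext
      intro x
      simp only [eval_add, eval_sub, eval_mul, eval_pow, eval_C, eval_X]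
      ring
    rw [e2] at h
    exact h

/-! ## Vertex counts -/

/-- `τ k` vertices at depth `k`, `1 ≤ k ≤ h` -/
def T (h : ℕ) (τ : ℕ → ℕ) : ℚ[X] := ∑ k ∈ Icc 1 h, C (τ k : ℚ) * X ^ k

theorem T_add (h : ℕ) (τ τ' : ℕ → ℕ) : T h (fun k => τ k + τ' k) = T h τ + T h τ' := by
  unfold T
  rw [← Finset.sum_add_distrib]
  apply Finset.sum_congr rfl
  intro k _
  push_cast
  rw [C_add]
  ring

theorem T_mul (h n : ℕ) (τ : ℕ → ℕ) : T h (fun k => n * τ k) = C (n : ℚ) * T h τ := by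
  unfold T
  rw [Finset.mul_sum]
  apply Finset.sum_congr rfl
  intro k _
  push_cast
  rw [C_mul]
  ring

theorem T_single {h j : ℕ} (h1 : 1 ≤ j) (h2 : j ≤ h) (n : ℕ) :
    T h (fun k => if k = j then n else 0) = C (n : ℚ) * X ^ j := by
  unfold T
  rw [Finset.sum_eq_single j]
  · beta_reduce
    rw [if_pos rfl]
  · intro b _ hb
    beta_reduce
    rw [if_neg hb, Nat.cast_zero, C_0, zero_mul]
  · intro hj
    exact absurd (Finset.mem_Icc.2 ⟨h1, h2⟩) hj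

theorem T_fp {h : ℕ} (j : ℕ) : j ≤ h → T h (fun k => if k ≤ j then 1 else 0) = fp j := by
  induction j with
  | zero =>
    intro _
    unfold T
    rw [fp_zero]
    apply Finset.sum_eq_zero
    intro k hk
    rw [Finset.mem_Icc] at hk
    beta_reduce
    have hk0 : ¬ k ≤ 0 := by omega
    rw [if_neg hk0, Nat.cast_zero, C_0, zero_mul]
  | succ j ih =>
    intro hj
    rw [fp_succ, ← ih (by omega)]
    have h1 := T_single (h := h) (j := j + 1) (by omega) hj 1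
    rw [Nat.cast_one, C_1, one_mul] at h1
    rw [← h1, ← T_add]
    unfold T
    apply Finset.sum_congr rfl
    intro k _
    congr 3
    beta_reduce
    split_ifs <;> omega

/-- gadgets -/
def Gd (h u : ℕ) (E : ℚ[X]) : Prop := ∃ τ : ℕ → ℕ, (∀ k, τ k ≤ u) ∧ Rt (T h τ) (L (T h τ) + E)

theorem Gd_zero (h : ℕ) : Gd h 0 0 := by
  refine ⟨fun _ => 0, fun _ => le_rfl, ?_⟩
  have h1 : T h (fun _ => 0) = 0 := by
    unfold T
    apply Finset.sum_eq_zero
    intro k _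
    rw [Nat.cast_zero, C_0, zero_mul]
  rw [h1, map_zero, add_zero]
  exact Rt.nil

theorem Gd_mono {h u u' : ℕ} {E : ℚ[X]} (hG : Gd h u E) (hu : u ≤ u') : Gd h u' E := by
  obtain ⟨τ, h1, h2⟩ := hG
  exact ⟨τ, fun k => (h1 k).trans hu, h2⟩

theorem Gd_add {h u u' : ℕ} {E E' : ℚ[X]} (hG : Gd h u E) (hG' : Gd h u' E') :
    Gd h (u + u') (E + E') := by
  obtain ⟨τ, h1, h2⟩ := hG
  obtain ⟨τ', h1', h2'⟩ := hG'
  refine ⟨fun k => τ k + τ' k, fun k => Nat.add_le_add (h1 k) (h1' k), ?_⟩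
  have h3 := Rt_add h2 h2'
  rw [T_add, map_add]
  have e : L (T h τ) + L (T h τ') + (E + E') = L (T h τ) + E + (L (T h τ') + E') := by ring
  rw [e]
  exact h3

theorem Gd_nsmul {h u : ℕ} {E : ℚ[X]} (hG : Gd h u E) (n : ℕ) : Gd h (n * u) (C (n : ℚ) * E) := by
  obtain ⟨τ, h1, h2⟩ := hG
  refine ⟨fun k => n * τ k, fun k => Nat.mul_le_mul_left n (h1 k), ?_⟩
  have h3 := Rt_nsmul h2 n
  rw [T_mul, L_C_mul, ← mul_add]
  exact h3

theorem Gd_sum {h : ℕ} (s : Finset ℕ) (u : ℕ → ℕ) (E : ℕ → ℚ[X])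
    (H : ∀ j ∈ s, Gd h (u j) (E j)) : Gd h (∑ j ∈ s, u j) (∑ j ∈ s, E j) := by
  induction s using Finset.induction_on with
  | empty =>
    rw [Finset.sum_empty, Finset.sum_empty]
    exact Gd_zero h
  | insert a s ha ih =>
    rw [Finset.sum_insert ha, Finset.sum_insert ha]
    exact Gd_add (H a (Finset.mem_insert_self a s))
      (ih fun j hj => H j (Finset.mem_insert_of_mem hj))

/-- one double star -/
theorem Gd_star {h j : ℕ} (hj : j + 2 ≤ h) (B K : ℕ) (hK : j + 3 ≤ h ∨ K = 0) :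
    Gd h (1 + B + K) (C ((B : ℚ) * (B + 1) / 2) * (X ^ 2 - X ^ (2 * (j + 2)))
      + C ((B : ℚ) * K) * (X ^ 3 - X ^ (2 * (j + 2) + 1))
      + C ((K : ℚ) * (K - 1) / 2) * (X ^ 2 - X ^ (2 * (j + 2) + 2))) := by
  have h1 := Rt_of_Br (star j B K)
  refine ⟨fun k => ((if k ≤ j + 2 then 1 else 0) + (if k = j + 2 then B else 0)) +
    (if k = j + 3 then K else 0), fun k => ?_, ?_⟩
  · beta_reduce
    split_ifs <;> omega
  · have h2 : T h (fun k => if k = j + 3 then K else 0) = C (K : ℚ) * X ^ (j + 3) := by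
      rcases hK with hK | hK
      · exact T_single (by omega) hK K
      · rw [hK, Nat.cast_zero, C_0, zero_mul]
        unfold T
        apply Finset.sum_eq_zero
        intro k _
        beta_reduce
        rw [ite_self, Nat.cast_zero, C_0, zero_mul]
    have h3 : T h (fun k => ((if k ≤ j + 2 then 1 else 0) + (if k = j + 2 then B else 0)) +
        (if k = j + 3 then K else 0)) =
        fp (j + 2) + C (B : ℚ) * X ^ (j + 2) + C (K : ℚ) * X ^ (j + 3) := by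
      rw [T_add, T_add, T_fp (j + 2) hj, T_single (by omega) hj, h2]
    rw [h3, map_add, map_add, L_fp, L_C_mul, L_C_mul, L_X_pow, L_X_pow]
    have e : gp (j + 2) + C (B : ℚ) * lam (j + 2) + C (K : ℚ) * lam (j + 3) +
      (C ((B : ℚ) * (B + 1) / 2) * (X ^ 2 - X ^ (2 * (j + 2)))
      + C ((B : ℚ) * K) * (X ^ 3 - X ^ (2 * (j + 2) + 1))
      + C ((K : ℚ) * (K - 1) / 2) * (X ^ 2 - X ^ (2 * (j + 2) + 2))) =
      gp (j + 2) + C (B : ℚ) * lam (j + 2) + C (K : ℚ) * lam (j + 3)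
      + C ((B : ℚ) * (B + 1) / 2) * (X ^ 2 - X ^ (2 * (j + 2)))
      + C ((B : ℚ) * K) * (X ^ 3 - X ^ (2 * (j + 2) + 1))
      + C ((K : ℚ) * (K - 1) / 2) * (X ^ 2 - X ^ (2 * (j + 2) + 2)) := by ring
    rw [e]
    exact h1

/-- triangular decomposition -/
theorem tri (n : ℕ) : ∃ D e : ℕ, 2 * n = D * (D + 1) + 2 * e ∧ e ≤ D := by
  induction n with
  | zero => exact ⟨0, 0, rfl, le_rfl⟩
  | succ n ih =>
    obtain ⟨D, e, h1, h2⟩ := ih
    rcases h2.lt_or_eq with h3 | h3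
    · exact ⟨D, e + 1, by omega, h3⟩
    · refine ⟨D + 1, 0, ?_, Nat.zero_le _⟩
      rw [h3] at h1
      linarith [mul_add (D + 1) (D + 1) 1, mul_add D D 1]

theorem alpha_gadget {h j Q n : ℕ} (hj2 : 2 ≤ j) (hj : j ≤ h) (hn : n ≤ Q ^ 2) :
    Gd h (6 * Q + 1) (C (n : ℚ) * (X ^ 2 - X ^ (2 * j))) := by
  obtain ⟨i, rfl⟩ : ∃ i, j = i + 2 := ⟨j - 2, by omega⟩
  obtain ⟨D, e, h1, h2⟩ := tri n
  have hD : D ≤ 2 * Q := by
    by_contra hc
    push Not at hc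
    nlinarith
  have g1 := Gd_star hj D 0 (Or.inr rfl)
  have g2 := Gd_nsmul (Gd_star hj 1 0 (Or.inr rfl)) e
  have g3 := Gd_add g1 g2
  have g4 := Gd_mono (u' := 6 * Q + 1) g3 (by omega)
  have h1' : (n : ℚ) = (D : ℚ) * (D + 1) / 2 + e := by
    have : (2 : ℚ) * n = D * (D + 1) + 2 * e := by exact_mod_cast h1
    linarith
  have e1 : C (n : ℚ) * (X ^ 2 - X ^ (2 * (i + 2))) =
      C ((D : ℚ) * (D + 1) / 2) * (X ^ 2 - X ^ (2 * (i + 2)))
      + C ((D : ℚ) * ((0 : ℕ) : ℚ)) * (X ^ 3 - X ^ (2 * (i + 2) + 1))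
      + C (((0 : ℕ) : ℚ) * (((0 : ℕ) : ℚ) - 1) / 2) * (X ^ 2 - X ^ (2 * (i + 2) + 2)) +
      C (e : ℚ) * (C (((1 : ℕ) : ℚ) * (((1 : ℕ) : ℚ) + 1) / 2) * (X ^ 2 - X ^ (2 * (i + 2)))
      + C (((1 : ℕ) : ℚ) * ((0 : ℕ) : ℚ)) * (X ^ 3 - X ^ (2 * (i + 2) + 1))
      + C (((0 : ℕ) : ℚ) * (((0 : ℕ) : ℚ) - 1) / 2) * (X ^ 2 - X ^ (2 * (i + 2) + 2))) := by
    rw [h1']
    apply Polynomial.funext
    intro x
    simp only [eval_add, eval_sub, eval_mul, eval_pow, eval_C, eval_X]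
    push_cast
    ring
  rw [e1]
  exact g4

theorem beta_gadget {h j Q b : ℕ} (hj2 : 2 ≤ j) (hj : j ≤ h) (hjh : j + 1 ≤ h ∨ b = 0)
    (hb : b ≤ Q ^ 2) : Gd h (8 * Q + 1)
      (C (b : ℚ) * (X ^ 3 - X ^ (2 * j + 1))
        + C ((b : ℚ) - ((Nat.sqrt b).choose 2 : ℕ)) * (X ^ 2 - X ^ (2 * j))
        + C (((Nat.sqrt b).choose 2 : ℕ) : ℚ) * (X ^ 2 - X ^ (2 * (j + 1)))) := by
  rcases hjh with hjh | hb0
  · obtain ⟨i, rfl⟩ : ∃ i, j = i + 2 := ⟨j - 2, by omega⟩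
    have h1 : Nat.sqrt b * Nat.sqrt b ≤ b := Nat.sqrt_le b
    have h2 : b ≤ Nat.sqrt b * Nat.sqrt b + Nat.sqrt b + Nat.sqrt b := Nat.sqrt_le_add b
    have h3 : Nat.sqrt b ≤ Q := by
      have := Nat.sqrt_le_sqrt hb
      rwa [Nat.sqrt_eq'] at this
    obtain ⟨e, he⟩ : ∃ e, b = Nat.sqrt b * Nat.sqrt b + e := ⟨b - Nat.sqrt b * Nat.sqrt b, by omega⟩
    have he2 : e ≤ 2 * Nat.sqrt b := by omega
    rw [Nat.cast_choose_two]
    obtain ⟨a, ha⟩ : ∃ a, a = Nat.sqrt b := ⟨_, rfl⟩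
    rw [← ha] at h1 h2 h3 he he2 ⊢
    have g1 := Gd_star hj a a (Or.inl hjh)
    have g2 := Gd_nsmul (Gd_star hj 1 1 (Or.inl hjh)) e
    have g3 := Gd_add g1 g2
    have g4 := Gd_mono (u' := 8 * Q + 1) g3 (by omega)
    have he' : (b : ℚ) = (a : ℚ) * a + e := by exact_mod_cast he
    have e1 : C (b : ℚ) * (X ^ 3 - X ^ (2 * (i + 2) + 1))
        + C ((b : ℚ) - (a : ℚ) * ((a : ℚ) - 1) / 2) * (X ^ 2 - X ^ (2 * (i + 2)))
        + C ((a : ℚ) * ((a : ℚ) - 1) / 2) * (X ^ 2 - X ^ (2 * (i + 2 + 1))) =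
      C ((a : ℚ) * (a + 1) / 2) * (X ^ 2 - X ^ (2 * (i + 2)))
      + C ((a : ℚ) * a) * (X ^ 3 - X ^ (2 * (i + 2) + 1))
      + C ((a : ℚ) * (a - 1) / 2) * (X ^ 2 - X ^ (2 * (i + 2) + 2)) +
      C (e : ℚ) * (C (((1 : ℕ) : ℚ) * (((1 : ℕ) : ℚ) + 1) / 2) * (X ^ 2 - X ^ (2 * (i + 2)))
      + C (((1 : ℕ) : ℚ) * ((1 : ℕ) : ℚ)) * (X ^ 3 - X ^ (2 * (i + 2) + 1))
      + C (((1 : ℕ) : ℚ) * (((1 : ℕ) : ℚ) - 1) / 2) * (X ^ 2 - X ^ (2 * (i + 2) + 2))) := by
      rw [he']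
      apply Polynomial.funext
      intro x
      simp only [eval_add, eval_sub, eval_mul, eval_pow, eval_C, eval_X]
      push_cast
      ring
    rw [e1]
    exact g4
  · rw [hb0, Nat.sqrt_zero, Nat.choose_zero_succ, Nat.cast_zero, sub_zero, C_0, zero_mul, zero_mul,
      zero_mul, add_zero, add_zero]
    exact Gd_mono (Gd_zero h) (Nat.zero_le _)

/-! ## Filling -/

theorem fill (h : ℕ) : ∀ r : ℕ → ℕ, (∀ k, 1 ≤ k → k < h → r (k + 1) ≤ r k) →
    Rt (T h r) (L (T h r)) := by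
  induction h with
  | zero =>
    intro r _
    have h1 : T 0 r = 0 := by
      unfold T
      rw [Finset.Icc_eq_empty (by omega), Finset.sum_empty]
    rw [h1, map_zero]
    exact Rt.nil
  | succ h ih =>
    intro r hr
    have hle : ∀ k, k ≤ h → 1 ≤ h + 1 - k → r (h + 1) ≤ r (h + 1 - k) := by
      intro k
      induction k with
      | zero => intro _ _; exact le_rfl
      | succ k ihk =>
        intro h1 h2
        have h3 := ihk (by omega) (by omega)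
        have h4 := hr (h + 1 - (k + 1)) h2 (by omega)
        have h5 : h + 1 - (k + 1) + 1 = h + 1 - k := by omega
        rw [h5] at h4
        exact h3.trans h4
    have hle' : ∀ k, 1 ≤ k → k ≤ h + 1 → r (h + 1) ≤ r k := by
      intro k h1 h2
      have h3 := hle (h + 1 - k) (by omega) (by omega)
      have h4 : h + 1 - (h + 1 - k) = k := by omega
      rwa [h4] at h3
    have h1 := ih (fun k => r k - r (h + 1)) (fun k hk1 hk2 => by
      have := hr k hk1 (by omega)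
      omega)
    have h2 := Rt_nsmul (Rt_of_Br (path h)) (r (h + 1))
    have h3 := Rt_add h2 h1
    have e1 : T (h + 1) r = C (r (h + 1) : ℚ) * fp (h + 1) + T h (fun k => r k - r (h + 1)) := by
      have e2 : fp (h + 1) = ∑ k ∈ Icc 1 (h + 1), X ^ k := by
        rw [← T_fp (h := h + 1) (h + 1) le_rfl]
        unfold T
        apply Finset.sum_congr rfl
        intro k hk
        rw [Finset.mem_Icc] at hk
        beta_reduce
        rw [if_pos hk.2, Nat.cast_one, C_1, one_mul]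
      rw [e2, T, T, Finset.sum_Icc_succ_top (by omega), Finset.sum_Icc_succ_top (by omega), mul_add,
        Finset.mul_sum]
      have e3 : ∑ k ∈ Icc 1 h, C (r k : ℚ) * X ^ k = ∑ k ∈ Icc 1 h, C (r (h + 1) : ℚ) * X ^ k +
          ∑ k ∈ Icc 1 h, C ((r k - r (h + 1) : ℕ) : ℚ) * X ^ k := by
        rw [← Finset.sum_add_distrib]
        apply Finset.sum_congr rfl
        intro k hk
        rw [Finset.mem_Icc] at hk
        rw [Nat.cast_sub (hle' k hk.1 (by omega)), C_sub]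
        ring
      rw [e3]
      ring
    rw [e1, map_add, L_C_mul, L_fp]
    exact h3

/-! ## The theorem -/

theorem G : Pool.Agent.H327.WR.SG := by
  intro h Q σ α β h2 hσ hαβ hβ1 hβh hα hstep
  have hsq : ∀ b : ℕ, (Nat.sqrt b).choose 2 ≤ b := by
    intro b
    have h1 : Nat.sqrt b * Nat.sqrt b ≤ b := Nat.sqrt_le b
    have h3 : (Nat.sqrt b).choose 2 ≤ Nat.sqrt b * Nat.sqrt b := by
      rw [Nat.choose_two_right]
      exact (Nat.div_le_self _ _).trans (Nat.mul_le_mul_left _ (Nat.sub_le _ _))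
    exact h3.trans h1
  obtain ⟨cp, hcp⟩ : ∃ cp : ℕ → ℕ, ∀ j, cp j = (Nat.sqrt (β j)).choose 2 := ⟨_, fun _ => rfl⟩
  have hcpβ : ∀ j, cp j ≤ β j := fun j => by
    rw [hcp]
    exact hsq _
  have hcp1 : cp 1 = 0 := by
    have := hcpβ 1
    omega
  have hcph : cp h = 0 := by
    have := hcpβ h
    omega
  have hG : ∀ j ∈ Icc 2 h, Gd h (14 * Q + 2)
      (C (β j : ℚ) * (X ^ 3 - X ^ (2 * j + 1)) + C ((β j : ℚ) - cp j) * (X ^ 2 - X ^ (2 * j))
        + C (cp j : ℚ) * (X ^ 2 - X ^ (2 * (j + 1))) +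
        C ((α j - (β j - cp j) - cp (j - 1) : ℕ) : ℚ) * (X ^ 2 - X ^ (2 * j))) := by
    intro j hj
    rw [Finset.mem_Icc] at hj
    have h3 : β j ≤ Q ^ 2 := by
      have := hαβ j hj.1 hj.2
      have := hα j
      omega
    have g1 := beta_gadget (Q := Q) hj.1 hj.2 (b := β j) (by
      rcases hj.2.lt_or_eq with h4 | h4
      · exact Or.inl h4
      · right
        rw [h4]
        exact hβh) h3
    rw [← hcp] at g1
    have g2 := alpha_gadget (Q := Q) (n := α j - (β j - cp j) - cp (j - 1)) hj.1 hj.2 (by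
      have := hα j
      omega)
    exact Gd_mono (Gd_add g1 g2) (by omega)
  have hG2 := Gd_sum (Icc 2 h) (fun _ => 14 * Q + 2) _ hG
  rw [Finset.sum_const, Nat.card_Icc, smul_eq_mul] at hG2
  have hG3 : Gd h (h * (14 * Q + 2)) (∑ j ∈ Icc 2 h, C (α j : ℚ) * (X ^ 2 - X ^ (2 * j))
      + ∑ j ∈ Icc 2 h, C (β j : ℚ) * (X ^ 3 - X ^ (2 * j + 1))) := by
    have e1 : ∑ j ∈ Icc 2 h,
      (C (β j : ℚ) * (X ^ 3 - X ^ (2 * j + 1)) + C ((β j : ℚ) - cp j) * (X ^ 2 - X ^ (2 * j))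
        + C (cp j : ℚ) * (X ^ 2 - X ^ (2 * (j + 1))) +
        C ((α j - (β j - cp j) - cp (j - 1) : ℕ) : ℚ) * (X ^ 2 - X ^ (2 * j))) =
      (∑ j ∈ Icc 2 h, C (α j : ℚ) * (X ^ 2 - X ^ (2 * j))
      + ∑ j ∈ Icc 2 h, C (β j : ℚ) * (X ^ 3 - X ^ (2 * j + 1))) := by
      have e2 : ∀ j ∈ Icc 2 h,
          (C (β j : ℚ) * (X ^ 3 - X ^ (2 * j + 1)) + C ((β j : ℚ) - cp j) * (X ^ 2 - X ^ (2 * j))
          + C (cp j : ℚ) * (X ^ 2 - X ^ (2 * (j + 1))) +
          C ((α j - (β j - cp j) - cp (j - 1) : ℕ) : ℚ) * (X ^ 2 - X ^ (2 * j))) =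
          (C (α j : ℚ) * (X ^ 2 - X ^ (2 * j)) + C (β j : ℚ) * (X ^ 3 - X ^ (2 * j + 1))) +
          (C (cp j : ℚ) * (X ^ 2 - X ^ (2 * (j + 1))) -
            C (cp (j - 1) : ℚ) * (X ^ 2 - X ^ (2 * j))) := by
        intro j hj
        rw [Finset.mem_Icc] at hj
        have h3 := hαβ j hj.1 hj.2
        have h4 := hcpβ j
        have h5 := hcpβ (j - 1)
        rw [Nat.cast_sub (by omega), Nat.cast_sub (by omega), Nat.cast_sub h4]
        simp only [C_sub]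
        ring
      rw [Finset.sum_congr rfl e2, Finset.sum_add_distrib, Finset.sum_add_distrib]
      have e3 : ∑ j ∈ Icc 2 h, ((C (cp j : ℚ) * (X ^ 2 - X ^ (2 * (j + 1))) : ℚ[X]) -
            C (cp (j - 1) : ℚ) * (X ^ 2 - X ^ (2 * j))) = 0 := by
        have e4 : ∀ m : ℕ, 1 ≤ m → ∑ j ∈ Icc 2 m, ((C (cp j : ℚ) * (X ^ 2 - X ^ (2 * (j + 1))) :
            ℚ[X]) - C (cp (j - 1) : ℚ) * (X ^ 2 - X ^ (2 * j))) =
            C (cp m : ℚ) * (X ^ 2 - X ^ (2 * (m + 1))) - C (cp 1 : ℚ) * (X ^ 2 - X ^ 4) := by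
          intro m hm
          induction m, hm using Nat.le_induction with
          | base =>
            rw [Finset.Icc_eq_empty (by omega), Finset.sum_empty]
            ring
          | succ m hm ih =>
            rw [Finset.sum_Icc_succ_top (by omega), ih, Nat.add_sub_cancel]
            ring
        rw [e4 h (by omega), hcp1, hcph]
        simp
      rw [e3, add_zero]
    rw [← e1]
    exact Gd_mono hG2 (Nat.mul_le_mul_right _ (by omega))
  obtain ⟨τ, hτ1, hτ2⟩ := hG3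
  have hbound : h * (14 * Q + 2) ≤ 100 * h * (Q + 1) := by nlinarith
  have hfill := fill h (fun k => σ k - τ k) (fun k hk1 hk2 => by
    have h3 := hstep k hk1 hk2.le
    have h4 := hτ1 k
    omega)
  have hsum := Rt_add hτ2 hfill
  have e5 : T h τ + T h (fun k => σ k - τ k) = ∑ k ∈ Finset.Icc 1 h, C (σ k : ℚ) * X ^ k := by
    rw [← T_add]
    unfold T
    apply Finset.sum_congr rfl
    intro k hk
    rw [Finset.mem_Icc] at hk
    have h3 := hstep k hk.1 hk.2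
    have h4 := hτ1 k
    have h5 : τ k + (σ k - τ k) = σ k := by omega
    beta_reduce
    rw [h5]
  rw [e5] at hsum
  have e6 : L (T h τ) + (∑ j ∈ Icc 2 h, C (α j : ℚ) * (X ^ 2 - X ^ (2 * j))
      + ∑ j ∈ Icc 2 h, C (β j : ℚ) * (X ^ 3 - X ^ (2 * j + 1))) + L (T h (fun k => σ k - τ k)) =
      L (∑ k ∈ Finset.Icc 1 h, C (σ k : ℚ) * X ^ k)
      + ∑ j ∈ Icc 2 h, C (α j : ℚ) * (X ^ 2 - X ^ (2 * j))
      + ∑ j ∈ Icc 2 h, C (β j : ℚ) * (X ^ 3 - X ^ (2 * j + 1)) := by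
    rw [← e5, map_add]
    ring
  rw [e6] at hsum
  exact hsum

end

end Pool.Agent.H331.WR
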