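import Pool.Agent.H327.WR.Pre

set_option autoImplicit false

open Polynomial Finset

namespace Pool.Agent.H327.WR

noncomputable section

lemma Zx_C_mul {M t : ℕ} {p : ℚ[X]} (h : C (M : ℚ) * p ∈ Zx) {ν : ℚ} (hν : ν - 1 = M * t)
    (x : ℚ) (hx : ∃ z : ℤ, x = z) : C (x * (ν - 1)) * p ∈ Zx := by
  obtain ⟨z, rfl⟩ := hx
  have e : C ((z : ℚ) * (ν - 1)) * p = C (z : ℚ) * C ((t : ℕ) : ℚ) * (C (M : ℚ) * p) := by
    rw [hν, C_mul, C_mul]; ring
  rw [e]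
  exact Zx.mul_mem (Zx.mul_mem (C_int_mem _) (C_nat_mem _)) h

/-- one of the linear inequalities on the coefficients, for all large `ν` -/
lemma ev_dec (s h k : ℚ[X]) (j : ℕ) (hs : s.coeff (j + 1) < s.coeff j) (A B : ℚ) :
    ∀ᶠ ν : ℕ in Filter.atTop,
      (C ((ν : ℚ) ^ 2 - 1) * s + C ((ν : ℚ) - 1) * h + k).coeff (j + 1) + (A * ν + B)
        ≤ (C ((ν : ℚ) ^ 2 - 1) * s + C ((ν : ℚ) - 1) * h + k).coeff j := by
  have hx : 0 < s.coeff j - s.coeff (j + 1) := by linarith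
  filter_upwards [ev_lin (s.coeff j - s.coeff (j + 1)) (A - (h.coeff j - h.coeff (j + 1)))
    (B + (h.coeff j - h.coeff (j + 1)) - (k.coeff j - k.coeff (j + 1))
      + (s.coeff j - s.coeff (j + 1))) hx] with ν hν
  simp only [coeff_add, coeff_C_mul]
  nlinarith

theorem final (hT : ST) (hG : SG) (hN : SN) (m : ℕ) (hm : 1 ≤ m) :
    ∃ (n : ℕ) (Γ : SimpleGraph (Fin n)) (e κ c ν : ℚ), Γ.IsTree ∧ 0 < e ∧ 0 < κ ∧ 0 < c ∧
      κ < ν ^ 2 ∧ 1 < ν ∧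
      (wiener Γ).map (Int.castRingHom ℚ) = PP e κ (C c * Nd m) ν := by
  have hm' : (1 : ℚ) ≤ m := by exact_mod_cast hm
  obtain ⟨th, ω, hth, hω, hJ⟩ := hN m (1 / 100) hm (by norm_num)
  obtain ⟨e, he⟩ : ∃ e : ℚ, e = 1 / (20 * m) := ⟨_, rfl⟩
  rw [← he] at hJ
  have he0 : 0 < e := by rw [he]; positivity
  have he1 : e ≤ 1 / 20 := by
    rw [he]
    exact one_div_le_one_div_of_le (by norm_num) (by linarith)
  have hN1 : 0 < (Nd m).eval 1 := by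
    unfold Nd
    rw [eval_prod]
    refine prod_pos fun i _ => ?_
    simp only [eval_add, eval_X, eval_C]
    positivity
  obtain ⟨c, hc⟩ : ∃ c : ℚ, c = 1 / (2 * (1 + e) * (Nd m).eval 1) := ⟨_, rfl⟩
  have hc0 : 0 < c := by rw [hc]; positivity
  have hgood := good_nd m hm c hc0
  obtain ⟨G, hGdef⟩ : ∃ G : ℚ[X], G = C c * Nd m := ⟨_, rfl⟩
  rw [← hGdef] at hgood
  have hG1 : 2 * (1 + e) * G.eval 1 = 1 := by
    rw [hGdef, eval_mul, eval_C, hc]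
    field_simp
  have hG0 : 0 < G.eval 0 := by
    rw [← coeff_zero_eq_eval_zero]
    exact hgood.pos 0 (Nat.zero_le _)
  obtain ⟨κ, hκ⟩ : ∃ κ : ℚ, κ = 1 / ((1 + e ^ 2) * G.eval 0 ^ 2) := ⟨_, rfl⟩
  have hκ0 : 0 < κ := by rw [hκ]; positivity
  have hκ1 : κ * (1 + e ^ 2) * G.eval 0 ^ 2 = 1 := by
    rw [hκ]; field_simp
  obtain ⟨w, hw⟩ : ∃ w : ℚ[X], w = C (1 / c) * ω := ⟨_, rfl⟩
  have hwd : w.natDegree ≤ m := by
    rw [hw]; exact (natDegree_C_mul_le _ _).trans hω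
  have hGw : G * w = Nd m * ω := by
    have : (C c : ℚ[X]) * C (1 / c) = 1 := by
      rw [← C_mul, mul_one_div_cancel hc0.ne', C_1]
    rw [hw, hGdef]
    linear_combination (Nd m * ω) * this
  have hpe : 1 + e ≠ 0 := by linarith
  have hme : 1 - e ≠ 0 := by linarith
  obtain ⟨E2, E3, hE⟩ := expand e κ hpe G th w
  -- the coefficients of `E1`
  have hE1 : ∀ k, |(E1 e G th w).coeff (k + 4) - ((X : ℚ[X]) ^ 2 * (1 - X ^ 2) * J0 m).coeff (k + 4)|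
      < 2 / 100 := by
    intro k
    unfold E1
    rw [coeff_shift, coeff_shift, hGw]
    have a1 := abs_lt.mp (hJ (k + 2))
    have a2 := abs_lt.mp (hJ k)
    rw [abs_lt]
    constructor <;> linarith [a1.1, a1.2, a2.1, a2.2]
  -- the choice of `b`
  obtain ⟨d, hd, hdl⟩ := exists_den_list [c0 e w, c1 e w]
  have hdq : (0 : ℚ) < d := by exact_mod_cast hd
  have tb : Filter.Tendsto (fun t : ℕ => d * t) Filter.atTop Filter.atTop :=
    Filter.tendsto_atTop_mono (f := fun t : ℕ => t) (fun t => by nlinarith) Filter.tendsto_id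
  have evb : ∀ᶠ t : ℕ in Filter.atTop, ∀ k ∈ range (2 * m + 5),
      |((d * t : ℕ) : ℚ) * E2.coeff k + E3.coeff k| ≤ 1 / 100 * ((d * t : ℕ) : ℚ) ^ 2 := by
    rw [Filter.eventually_all_finset]
    intro k _
    exact tb.eventually (ev_abs (E2.coeff k) (E3.coeff k) (1 / 100) (by norm_num))
  obtain ⟨t, ht, ht1⟩ := (evb.and (Filter.eventually_ge_atTop 1)).exists
  obtain ⟨b, hb⟩ : ∃ b : ℕ, b = d * t := ⟨_, rfl⟩
  have hb0 : (0 : ℚ) < b := by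
    have : 0 < b := by rw [hb]; exact Nat.mul_pos hd ht1
    exact_mod_cast this
  rw [← hb] at ht
  have hc0m : C ((b : ℚ) ^ 2) * c0 e w ∈ Zx := by
    have e1 : C ((b : ℚ) ^ 2) * c0 e w = C ((t : ℕ) : ℚ) * C ((b : ℕ) : ℚ) * (C (d : ℚ) * c0 e w) := by
      rw [hb]; push_cast; simp only [C_mul, C_pow]; ring
    rw [e1]
    exact Zx.mul_mem (Zx.mul_mem (C_nat_mem _) (C_nat_mem _)) (hdl _ (by simp))
  have hc1m : C ((b : ℚ) ^ 2) * c1 e w ∈ Zx := by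
    have e1 : C ((b : ℚ) ^ 2) * c1 e w = C ((t : ℕ) : ℚ) * C ((b : ℕ) : ℚ) * (C (d : ℚ) * c1 e w) := by
      rw [hb]; push_cast; simp only [C_mul, C_pow]; ring
    rw [e1]
    exact Zx.mul_mem (Zx.mul_mem (C_nat_mem _) (C_nat_mem _)) (hdl _ (by simp))
  obtain ⟨U, V, hE⟩ := hE b
  -- the choice of `ν`
  set Q1 : ℚ[X] := X * (1 + X) * (C (1 + e ^ 2) + C (2 * e) * X) * G ^ 2 * (C κ * (1 - X)) with hQ1
  set Q2 : ℚ[X] := X * (1 + X) * (C (1 + e ^ 2) + C (2 * e) * X) * G ^ 2 * X with hQ2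
  obtain ⟨M, hM, hMl⟩ := exists_den_list [s0 e G, s1 e G, a0 e * tt e th b, a1 e * tt e th b, Q1, Q2]
  have tn := tendsto_affine M hM
  have evA : ∀ᶠ s : ℕ in Filter.atTop, ∀ k ∈ range (2 * m + 5),
      |((1 + M * s : ℕ) : ℚ) * U.coeff k + V.coeff k|
        ≤ (b : ℚ) ^ 2 / 100 * ((1 + M * s : ℕ) : ℚ) ^ 2 := by
    rw [Filter.eventually_all_finset]
    intro k _
    exact tn.eventually (ev_abs (U.coeff k) (V.coeff k) ((b : ℚ) ^ 2 / 100) (by positivity))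
  have evB : ∀ᶠ s : ℕ in Filter.atTop, ∀ k ∈ Icc 1 (m + 2),
      (S0 e G th w ((1 + M * s : ℕ) : ℚ) b).coeff (k + 1)
        + (200 * (m + 2) * b * ((1 + M * s : ℕ) : ℚ) + 100 * (m + 2))
        ≤ (S0 e G th w ((1 + M * s : ℕ) : ℚ) b).coeff k := by
    rw [Filter.eventually_all_finset]
    intro k hk
    have hk := mem_Icc.mp hk
    exact tn.eventually (ev_dec (s0 e G) (a0 e * tt e th b) (-X + C ((b : ℚ) ^ 2) * c0 e w) k
      (s0_dec hgood he0 he1 k hk.1 hk.2) (200 * (m + 2) * b) (100 * (m + 2)))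
  have evC : ∀ᶠ s : ℕ in Filter.atTop, ∀ k ∈ Icc 1 (m + 1),
      (S1 e G th w ((1 + M * s : ℕ) : ℚ) b).coeff (k + 1)
        + (0 * ((1 + M * s : ℕ) : ℚ) + 100 * (m + 1))
        ≤ (S1 e G th w ((1 + M * s : ℕ) : ℚ) b).coeff k := by
    rw [Filter.eventually_all_finset]
    intro k hk
    have hk := mem_Icc.mp hk
    exact tn.eventually (ev_dec (s1 e G) (a1 e * tt e th b) (C ((b : ℚ) ^ 2) * c1 e w) k
      (s1_dec hgood he1 k hk.1 hk.2) 0 (100 * (m + 1)))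
  have evD : ∀ᶠ s : ℕ in Filter.atTop, (0 : ℚ) * ((1 + M * s : ℕ) : ℚ) + (κ + 1)
      ≤ 1 * ((1 + M * s : ℕ) : ℚ) ^ 2 := tn.eventually (ev_lin 1 0 (κ + 1) one_pos)
  have evF : ∀ᶠ s : ℕ in Filter.atTop, 2 ≤ 1 + M * s := tn.eventually (Filter.eventually_ge_atTop 2)
  obtain ⟨s, ⟨⟨⟨⟨hA, hB⟩, hC⟩, hD⟩, hF⟩⟩ := ((((evA.and evB).and evC).and evD).and evF).exists
  obtain ⟨N, hNs⟩ : ∃ N : ℕ, N = 1 + M * s := ⟨_, rfl⟩
  rw [← hNs] at hA hB hC hD hF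
  obtain ⟨ν, hν⟩ : ∃ ν : ℚ, ν = (N : ℚ) := ⟨_, rfl⟩
  rw [← hν] at hA hB hC hD
  have hν2 : (2 : ℚ) ≤ ν := by rw [hν]; exact_mod_cast hF
  have hν1 : ν - 1 = M * s := by rw [hν, hNs]; push_cast; ring
  have hνz : ∀ z : ℤ, ∃ z' : ℤ, ν + z = z' := fun z => ⟨(N : ℤ) + z, by rw [hν]; push_cast; ring⟩
  -- integrality
  have hS0m : S0 e G th w ν b ∈ Zx := by
    have h1 := Zx_C_mul (hMl _ (by simp : s0 e G ∈ _)) hν1 (ν + (1 : ℤ)) (hνz 1)
    have h2 := Zx_C_mul (hMl _ (by simp : a0 e * tt e th b ∈ _)) hν1 1 ⟨1, by norm_num⟩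
    have e1 : S0 e G th w ν b = C ((ν + (1 : ℤ)) * (ν - 1)) * s0 e G
        + C (1 * (ν - 1)) * (a0 e * tt e th b) + (-X + C ((b : ℚ) ^ 2) * c0 e w) := by
      unfold S0
      have : (ν + ((1 : ℤ) : ℚ)) * (ν - 1) = ν ^ 2 - 1 := by push_cast; ring
      rw [this, one_mul]
    rw [e1]
    exact Zx.add_mem (Zx.add_mem h1 h2) (Zx.add_mem (Zx.neg_mem X_mem) hc0m)
  have hS1m : S1 e G th w ν b ∈ Zx := by
    have h1 := Zx_C_mul (hMl _ (by simp : s1 e G ∈ _)) hν1 (ν + (1 : ℤ)) (hνz 1)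
    have h2 := Zx_C_mul (hMl _ (by simp : a1 e * tt e th b ∈ _)) hν1 1 ⟨1, by norm_num⟩
    have e1 : S1 e G th w ν b = C ((ν + (1 : ℤ)) * (ν - 1)) * s1 e G
        + C (1 * (ν - 1)) * (a1 e * tt e th b) + C ((b : ℚ) ^ 2) * c1 e w := by
      unfold S1
      have : (ν + ((1 : ℤ) : ℚ)) * (ν - 1) = ν ^ 2 - 1 := by push_cast; ring
      rw [this, one_mul]
    rw [e1]
    exact Zx.add_mem (Zx.add_mem h1 h2) hc1m
  have hPm : PP e κ G ν ∈ Zx := by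
    have h1 := Zx_C_mul (hMl _ (by simp : Q1 ∈ _)) hν1 (ν + (1 : ℤ)) (hνz 1)
    have h2 := Zx_C_mul (hMl _ (by simp : Q2 ∈ _)) hν1 ((ν + (1 : ℤ)) * ν ^ 2)
      ⟨((N : ℤ) + 1) * (N : ℤ) ^ 2, by rw [hν]; push_cast; ring⟩
    have e1 : PP e κ G ν = C ((ν + (1 : ℤ)) * (ν - 1)) * Q1
        + C ((ν + (1 : ℤ)) * ν ^ 2 * (ν - 1)) * Q2 := by
      unfold PP
      rw [hQ1, hQ2]
      have i1 : (ν + ((1 : ℤ) : ℚ)) * (ν - 1) = ν ^ 2 - 1 := by push_cast; ring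
      have i2 : (ν + ((1 : ℤ) : ℚ)) * ν ^ 2 * (ν - 1) = (ν ^ 2 - 1) * ν ^ 2 := by push_cast; ring
      rw [i1, i2, C_mul (a := ν ^ 2 - 1)]
      ring
    rw [e1]
    exact Zx.add_mem h1 h2
  -- the level polynomials
  have dS0 := deg_S0 hm hgood e th w ν b hth hwd
  have dS1 := deg_S1 hm hgood e th w ν b hth
  set S := S0 e G th w ν b with hSdef
  set T := S1 e G th w ν b with hTdef
  obtain ⟨Q, hQ⟩ : ∃ Q : ℕ, Q = 2 * b * N := ⟨_, rfl⟩
  have hQq : (Q : ℚ) = 2 * b * ν := by rw [hQ, hν]; push_cast; ring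
  obtain ⟨σ, σ1, σ2, σ3, σ4⟩ := exists_sigma hS0m (m + 2) (100 * (m + 2) * (Q + 1))
    (S0_zero e G th w ν b) dS0 (by
      intro k h1 h2
      have := hB k (mem_Icc.mpr ⟨h1, h2⟩)
      push_cast
      rw [hQq]
      linarith)
  obtain ⟨ρ, ρ1, ρ2, ρ3, ρ4⟩ := exists_sigma hS1m (m + 1) (100 * (m + 1) * (0 + 1))
    (S1_zero e G th w ν b) dS1 (by
      intro k h1 h2
      have := hC k (mem_Icc.mpr ⟨h1, h2⟩)
      push_cast
      linarith)
  -- the collections of paths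
  have rt1 : Rt T (L T) := by
    have := hG (m + 1) 0 ρ (fun _ => 0) (fun _ => 0) (by omega) ρ1 (by intros; omega) rfl rfl
      (by intros; omega) ρ3
    rw [← ρ4] at this
    simpa only [Nat.cast_zero, C_0, zero_mul, sum_const_zero, add_zero] using this
  have rt0 : Rt S (L S) := by
    have := hG (m + 2) 0 σ (fun _ => 0) (fun _ => 0) (by omega) σ1 (by intros; omega) rfl rfl
      (by intros; omega) (by
        intro k h1 h2
        have := σ3 k h1 h2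
        have h5 : 100 * (m + 2) * (0 + 1) ≤ 100 * (m + 2) * (Q + 1) :=
          Nat.mul_le_mul_left _ (by omega)
        omega)
    rw [← σ4] at this
    simpa only [Nat.cast_zero, C_0, zero_mul, sum_const_zero, add_zero] using this
  have R1 := Rt_RT rt1
  have R0 := RT.join (Rt_RT rt0) R1
  have eW : C (1 / 2) * S ^ 2 + L S + (C (1 / 2) * T ^ 2 + L T) + X * (1 + S) * (1 + T)
      = W0 S T := by unfold W0; ring
  rw [eW] at R0
  have f1 : (1 + S + X * (1 + T)).eval 1 = ν ^ 2 := F_one e hpe G th w hG1 ν b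
  have f2 : (1 + S + X * (1 + T)).eval (-1) = ν := F_neg e hpe hme G th w ν b
  have r1 := RT_one R0
  have r2 := RT_neg R0
  have r3 := RT_coeff R0
  rw [f1] at r1 r2 r3
  rw [f2] at r2
  -- the difference
  set E := PP e κ G ν - W0 S T with hEdef
  have hEm : E ∈ Zx := Zx.sub_mem hPm (RT_mem R0).2
  have hE0 : E.coeff 0 = 0 := by rw [hEdef, coeff_sub, PP_zero, r3.2.1]; ring
  have hEc1 : E.coeff 1 = 0 := by rw [hEdef, coeff_sub, PP_coeff_one e κ G hκ1, r3.2.2]; ring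
  have hEe1 : E.eval 1 = 0 := by
    rw [hEdef, eval_sub, PP_one e κ G hG1]; linarith
  have hEe2 : E.eval (-1) = 0 := by
    rw [hEdef, eval_sub, PP_neg]; linarith
  have hEd : E.natDegree ≤ 2 * (m + 2) := by
    refine (natDegree_sub_le_of_le (deg_PP hgood e κ ν) (deg_W0 dS0 dS1)).trans ?_
    simp; omega
  have hEk : ∀ k, k + 4 ≤ 2 * m + 4 → |E.coeff (k + 4)
      - ν ^ 2 * (b : ℚ) ^ 2 * ((X : ℚ[X]) ^ 2 * (1 - X ^ 2) * J0 m).coeff (k + 4)|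
      ≤ 4 / 100 * (ν ^ 2 * (b : ℚ) ^ 2) := by
    intro k hk
    have h1 : E = C (ν ^ 2) * (C ((b : ℚ) ^ 2) * E1 e G th w + C (b : ℚ) * E2 + E3) + C ν * U + V :=
      hE ν
    have h2 : E.coeff (k + 4) = ν ^ 2 * ((b : ℚ) ^ 2 * (E1 e G th w).coeff (k + 4)
        + b * E2.coeff (k + 4) + E3.coeff (k + 4)) + ν * U.coeff (k + 4) + V.coeff (k + 4) := by
      rw [h1]; simp only [coeff_add, coeff_C_mul]
    have a1 := abs_lt.mp (hE1 k)
    have a2 := abs_le.mp (ht (k + 4) (mem_range.mpr (by omega)))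
    have a3 := abs_le.mp (hA (k + 4) (mem_range.mpr (by omega)))
    have n2 : 0 < ν ^ 2 := by positivity
    have b2 : 0 < (b : ℚ) ^ 2 := by positivity
    have nb : 0 < ν ^ 2 * (b : ℚ) ^ 2 := by positivity
    have a4 := mul_le_mul_of_nonneg_left a2.1 n2.le
    have a5 := mul_le_mul_of_nonneg_left a2.2 n2.le
    have a6 := mul_le_mul_of_nonneg_left a1.1.le nb.le
    have a7 := mul_le_mul_of_nonneg_left a1.2.le nb.le
    rw [h2, abs_le]
    constructor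
    · linarith [a3.1, a3.2]
    · linarith [a3.1, a3.2]
  have nb : 0 < ν ^ 2 * (b : ℚ) ^ 2 := by positivity
  have hev : ∀ j, 2 ≤ j → j ≤ m + 2 → 296 / 100 * (ν ^ 2 * (b : ℚ) ^ 2) ≤ -E.coeff (2 * j) ∧
      -E.coeff (2 * j) ≤ 304 / 100 * (ν ^ 2 * (b : ℚ) ^ 2) := by
    intro j h1 h2
    have := abs_le.mp (hEk (2 * j - 4) (by omega))
    rw [show 2 * j - 4 + 4 = 2 * j by omega, E0_even m j h1 h2] at this
    constructor <;> linarith [this.1, this.2]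
  have hod : ∀ j, 2 ≤ j → j ≤ m + 1 → 96 / 100 * (ν ^ 2 * (b : ℚ) ^ 2) ≤ -E.coeff (2 * j + 1) ∧
      -E.coeff (2 * j + 1) ≤ 104 / 100 * (ν ^ 2 * (b : ℚ) ^ 2) := by
    intro j h1 h2
    have := abs_le.mp (hEk (2 * j + 1 - 4) (by omega))
    rw [show 2 * j + 1 - 4 + 4 = 2 * j + 1 by omega, E0_odd m j h1 h2] at this
    constructor <;> linarith [this.1, this.2]
  have hnat : ∀ k, 0 ≤ -E.coeff k → ∃ a : ℕ, (a : ℚ) = -E.coeff k := by
    intro k hk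
    obtain ⟨z, hz⟩ := coeff_int hEm k
    have h1 : (0 : ℤ) ≤ -z := by
      rw [hz] at hk; exact_mod_cast hk
    refine ⟨(-z).toNat, ?_⟩
    rw [hz]
    have := Int.toNat_of_nonneg h1
    have h2 : (((-z).toNat : ℤ) : ℚ) = ((-z : ℤ) : ℚ) := by rw [this]
    push_cast at h2 ⊢
    exact_mod_cast h2
  have hα : ∀ j, ∃ a : ℕ, (2 ≤ j → j ≤ m + 2 → (a : ℚ) = -E.coeff (2 * j)) ∧
      (¬ (2 ≤ j ∧ j ≤ m + 2) → a = 0) := by
    intro j
    by_cases hj : 2 ≤ j ∧ j ≤ m + 2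
    · obtain ⟨a, ha⟩ := hnat (2 * j) (by linarith [(hev j hj.1 hj.2).1])
      exact ⟨a, fun _ _ => ha, fun h => absurd hj h⟩
    · exact ⟨0, fun h1 h2 => absurd ⟨h1, h2⟩ hj, fun _ => rfl⟩
  have hβ : ∀ j, ∃ a : ℕ, (2 ≤ j → j ≤ m + 1 → (a : ℚ) = -E.coeff (2 * j + 1)) ∧
      (¬ (2 ≤ j ∧ j ≤ m + 1) → a = 0) := by
    intro j
    by_cases hj : 2 ≤ j ∧ j ≤ m + 1
    · obtain ⟨a, ha⟩ := hnat (2 * j + 1) (by linarith [(hod j hj.1 hj.2).1])
      exact ⟨a, fun _ _ => ha, fun h => absurd hj h⟩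
    · exact ⟨0, fun h1 h2 => absurd ⟨h1, h2⟩ hj, fun _ => rfl⟩
  choose α hα1 hα2 using hα
  choose β hβ1 hβ2 using hβ
  have hβle : ∀ j, (β j : ℚ) ≤ 104 / 100 * (ν ^ 2 * (b : ℚ) ^ 2) := by
    intro j
    by_cases hj : 2 ≤ j ∧ j ≤ m + 1
    · rw [hβ1 j hj.1 hj.2]; exact (hod j hj.1 hj.2).2
    · rw [hβ2 j hj]; push_cast; positivity
  have hsum := decomp E (m + 2) (by omega) hE0 hEc1 hEe1 hEe2 hEd α β
    (fun j h1 h2 => hα1 j h1 h2) (fun j h1 h2 => by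
      rcases Nat.lt_or_ge (m + 1) j with h3 | h3
      · rw [hβ2 j (by omega), coeff_eq_zero_of_natDegree_lt (by omega)]; simp
      · exact hβ1 j h1 h3)
  have rt2 := hG (m + 2) Q σ α β (by omega) σ1 (by
      intro j h1 h2
      have h3 := (hev j h1 h2).1
      rw [← hα1 j h1 h2] at h3
      have h4 : ((β j + β (j - 1) : ℕ) : ℚ) ≤ α j := by
        push_cast
        linarith [hβle j, hβle (j - 1)]
      exact_mod_cast h4) (hβ2 1 (by omega)) (hβ2 (m + 2) (by omega)) (by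
      intro j
      by_cases hj : 2 ≤ j ∧ j ≤ m + 2
      · have h3 := (hev j hj.1 hj.2).2
        rw [← hα1 j hj.1 hj.2] at h3
        have h4 : (α j : ℚ) ≤ ((Q ^ 2 : ℕ) : ℚ) := by
          push_cast
          rw [hQq]
          have h5 : (2 * (b : ℚ) * ν) ^ 2 = 4 * (ν ^ 2 * (b : ℚ) ^ 2) := by ring
          rw [h5]
          linarith
        exact_mod_cast h4
      · rw [hα2 j hj]; exact Nat.zero_le _) σ3
  rw [← σ4, add_assoc, hsum] at rt2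
  have R2 := RT.join (Rt_RT rt2) R1
  have eP : C (1 / 2) * S ^ 2 + (L S + E) + (C (1 / 2) * T ^ 2 + L T) + X * (1 + S) * (1 + T)
      = PP e κ G ν := by
    have : C (1 / 2) * S ^ 2 + (L S + E) + (C (1 / 2) * T ^ 2 + L T) + X * (1 + S) * (1 + T)
      = W0 S T + E := by rw [← eW]; ring
    rw [this, hEdef]; ring
  rw [eP] at R2
  obtain ⟨n, Γ, r, h1, -, h3⟩ := hT _ _ R2
  refine ⟨n, Γ, e, κ, c, ν, h1, he0, hκ0, hc0, by linarith, by linarith, ?_⟩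
  rw [← h3, hGdef]

end

end Pool.Agent.H327.WR
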