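import Pool.Agent.H327.WR.Stm

set_option autoImplicit false

open Polynomial Finset

namespace Pool.Agent.H695.WR

open Pool.Agent.H327.WR

noncomputable section

private theorem wrn_sq (t ε : ℚ) (ht : 0 < t) (hε : 0 < ε) : ∃ r : ℚ, |r ^ 2 - t| < ε := by
  obtain ⟨q, -, h1, h2⟩ := exists_rat_pow_btwn (K := ℚ) (n := 2) (by norm_num) (x := t)
    (y := t + ε) (by linarith) (by linarith)
  refine ⟨q, ?_⟩
  simp only [Rat.cast_id] at h1 h2
  rw [abs_lt]
  constructor <;> linarith

private theorem wrn_deg (p : ℚ[X]) (n : ℕ) (hn : 0 < n) (h : p.degree < n) : p.natDegree < n := by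
  by_cases hp : p = 0
  · rw [hp, natDegree_zero]; exact hn
  · exact (natDegree_lt_iff_degree_lt hp).2 h

/-- the nodes -/
private def nd (m i : ℕ) : ℚ := -((4 * m + i : ℕ) : ℚ)

private theorem wrn_nd_inj (m : ℕ) : Function.Injective (nd m) := by
  intro i j h
  simp only [nd, neg_inj, Nat.cast_inj] at h
  omega

private theorem wrn_Nd_eq (m : ℕ) : Nd m = ∏ i ∈ range m, (X - C (nd m i)) := by
  unfold Nd
  refine Finset.prod_congr rfl fun i _ => ?_
  simp only [nd, map_neg, sub_neg_eq_add]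

private theorem wrn_Nd_monic (m : ℕ) : (Nd m).Monic := by
  rw [wrn_Nd_eq]
  exact monic_prod_of_monic _ _ fun i _ => monic_X_sub_C _

private theorem wrn_Nd_deg (m : ℕ) : (Nd m).natDegree = m := by
  rw [wrn_Nd_eq, natDegree_prod_of_monic _ _ fun i _ => monic_X_sub_C _]
  simp

private theorem wrn_Nd_dvd (m : ℕ) (P : ℚ[X]) (h : ∀ i, i < m → P.eval (nd m i) = 0) :
    Nd m ∣ P := by
  rw [wrn_Nd_eq]
  refine Finset.prod_dvd_of_coprime ?_ ?_
  · intro i _ j _ hij
    exact Polynomial.pairwise_coprime_X_sub_C (wrn_nd_inj m) hij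
  · intro i hi
    exact dvd_iff_isRoot.2 (h i (Finset.mem_range.1 hi))

/-- `q_i` at a number -/
private def qv (v : ℚ) (i : ℕ) : ℚ := ∑ l ∈ range (i + 1), v ^ (2 * l)

private theorem wrn_J0_eval (m : ℕ) (v : ℚ) : (J0 m).eval v =
    3 * (∑ i ∈ range (m + 1), qv v i) + v * ∑ i ∈ range m, qv v i := by
  simp only [J0, qv, eval_add, eval_mul, eval_finsetSum, eval_pow, eval_X]
  norm_num

private theorem wrn_qv_pos (v : ℚ) (i : ℕ) : 0 < qv v i := by
  unfold qv
  rw [Finset.sum_range_succ']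
  have : 0 ≤ ∑ l ∈ range i, v ^ (2 * (l + 1)) :=
    Finset.sum_nonneg fun l _ => by rw [pow_mul]; positivity
  simp only [mul_zero, pow_zero]
  linarith

private theorem wrn_qv_step (v : ℚ) (i : ℕ) : v ^ 2 * qv v i + 1 = qv v (i + 1) := by
  unfold qv
  rw [Finset.sum_range_succ' _ (i + 1), Finset.mul_sum]
  simp only [mul_zero, pow_zero]
  congr 1
  refine Finset.sum_congr rfl fun l _ => ?_
  ring

private theorem wrn_J0_pos (m : ℕ) (v : ℚ) (hv : v ≤ -1) : 0 < (J0 m).eval v := by
  rw [wrn_J0_eval]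
  have h1 : ∀ i, -(qv v (i + 1)) ≤ v * qv v i := by
    intro i
    have h := wrn_qv_step v i
    have hp := wrn_qv_pos v i
    nlinarith [mul_nonneg (by nlinarith : (0 : ℚ) ≤ v * (v + 1)) hp.le]
  have h2 : -(∑ i ∈ range m, qv v (i + 1)) ≤ v * ∑ i ∈ range m, qv v i := by
    rw [Finset.mul_sum, ← Finset.sum_neg_distrib]
    exact Finset.sum_le_sum fun i _ => h1 i
  have h3 : ∑ i ∈ range (m + 1), qv v i = ∑ i ∈ range m, qv v (i + 1) + qv v 0 :=
    Finset.sum_range_succ' _ m
  have h4 : 0 < qv v 0 := wrn_qv_pos v 0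
  have h5 : 0 ≤ ∑ i ∈ range m, qv v (i + 1) :=
    Finset.sum_nonneg fun i _ => (wrn_qv_pos v _).le
  linarith

private theorem wrn_J0_deg (m : ℕ) (hm : 1 ≤ m) : (J0 m).natDegree ≤ 2 * m := by
  unfold J0
  refine natDegree_add_le_of_degree_le ?_ ?_
  · have h3 : (3 : ℚ[X]) = C 3 := rfl
    rw [h3]
    refine (natDegree_C_mul_le _ _).trans ?_
    refine natDegree_sum_le_of_forall_le _ _ fun i hi => ?_
    refine natDegree_sum_le_of_forall_le _ _ fun l hl => ?_
    rw [natDegree_X_pow]
    rw [Finset.mem_range] at hi hl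
    omega
  · refine (natDegree_mul_le).trans ?_
    rw [natDegree_X]
    have : (∑ i ∈ range m, ∑ l ∈ range (i + 1), (X : ℚ[X]) ^ (2 * l)).natDegree ≤ 2 * m - 1 := by
      refine natDegree_sum_le_of_forall_le _ _ fun i hi => ?_
      refine natDegree_sum_le_of_forall_le _ _ fun l hl => ?_
      rw [natDegree_X_pow]
      rw [Finset.mem_range] at hi hl
      omega
    omega

/-- (N) -/
theorem N : Pool.Agent.H327.WR.SN := by
  intro m δ hm hδ
  have hmQ : (1 : ℚ) ≤ m := by exact_mod_cast hm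
  have hm0 : (0 : ℚ) < m := by linarith
  -- the quadratic factor
  set e : ℚ := 1 / (20 * m : ℚ) with he
  have he0 : 0 < e := by positivity
  have hem : e * m = 1 / 20 := by
    rw [he]; field_simp
  set B : ℚ[X] := (1 + X) * (C (1 + e ^ 2) + C (2 * e) * X) with hB
  have hBeval : ∀ v : ℚ, B.eval v = (1 + v) * ((1 + e ^ 2) + 2 * e * v) := by
    intro v
    rw [hB]
    simp only [eval_add, eval_mul, eval_one, eval_X, eval_C]
  have hA : ∀ i, i < m → 0 < -B.eval (nd m i) := by
    intro i hi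
    rw [hBeval]
    have hi' : (i : ℚ) + 1 ≤ m := by exact_mod_cast hi
    have hi0 : (0 : ℚ) ≤ i := by positivity
    have hv : nd m i = -(4 * m + i) := by simp [nd]
    rw [hv]
    have h1 : 0 < -(1 + -(4 * (m : ℚ) + i)) := by linarith
    have h2 : 0 < (1 + e ^ 2) + 2 * e * -(4 * (m : ℚ) + i) := by nlinarith
    have := mul_pos h1 h2
    linarith
  have hJ : ∀ i, i < m → 0 < (J0 m).eval (nd m i) := by
    intro i hi
    apply wrn_J0_pos
    simp only [nd, Nat.cast_add, Nat.cast_mul, Nat.cast_ofNat]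
    have hi0 : (0 : ℚ) ≤ i := by positivity
    linarith
  -- size of the Lagrange basis
  let bs : ℕ → ℚ[X] := fun i => Lagrange.basis (range m) (nd m) i
  let S : ℕ → ℚ := fun i => ∑ k ∈ (bs i).support, |(bs i).coeff k|
  have hS0 : ∀ i, 0 ≤ S i := fun i => Finset.sum_nonneg fun k _ => abs_nonneg _
  have hSk : ∀ i k, |(bs i).coeff k| ≤ S i := by
    intro i k
    by_cases hk : k ∈ (bs i).support
    · exact Finset.single_le_sum (f := fun k => |(bs i).coeff k|) (fun k _ => abs_nonneg _) hk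
    · rw [notMem_support_iff.1 hk, abs_zero]
      exact hS0 i
  set M : ℚ := 1 + ∑ i ∈ range m, S i with hM
  have hM0 : 0 < M := by
    have : 0 ≤ ∑ i ∈ range m, S i := Finset.sum_nonneg fun i _ => hS0 i
    linarith
  -- the choice of the r_i
  have hr : ∀ i, ∃ r : ℚ, i < m → |r ^ 2 * (-B.eval (nd m i)) - (J0 m).eval (nd m i)| < δ / M := by
    intro i
    by_cases hi : i < m
    · have hAi := hA i hi
      obtain ⟨r, hr⟩ := wrn_sq ((J0 m).eval (nd m i) / (-B.eval (nd m i)))
        (δ / M / (-B.eval (nd m i))) (div_pos (hJ i hi) hAi) (by positivity)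
      refine ⟨r, fun _ => ?_⟩
      rw [lt_div_iff₀ hAi] at hr
      rw [← abs_of_pos hAi, ← abs_mul, abs_of_pos hAi, sub_mul, div_mul_cancel₀ _ hAi.ne'] at hr
      exact hr
    · exact ⟨0, fun h => absurd h hi⟩
  choose r hr using hr
  let d : ℕ → ℚ := fun i => r i ^ 2 * (-B.eval (nd m i)) - (J0 m).eval (nd m i)
  set θ : ℚ[X] := Lagrange.interpolate (range m) (nd m) r with hθ
  set Dd : ℚ[X] := Lagrange.interpolate (range m) (nd m) d with hDd
  have hinj : Set.InjOn (nd m) (range m : Finset ℕ) := (wrn_nd_inj m).injOn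
  have hθdeg : θ.natDegree ≤ m - 1 := by
    have h := Lagrange.degree_interpolate_lt r hinj
    rw [Finset.card_range] at h
    have h' : θ.natDegree < m := wrn_deg _ _ (by omega) h
    omega
  have hDdeg : Dd.natDegree ≤ m - 1 := by
    have h := Lagrange.degree_interpolate_lt d hinj
    rw [Finset.card_range] at h
    have h' : Dd.natDegree < m := wrn_deg _ _ (by omega) h
    omega
  have hroot : ∀ i, i < m → (J0 m + Dd + B * θ ^ 2).eval (nd m i) = 0 := by
    intro i hi
    have hi' : i ∈ range m := Finset.mem_range.2 hi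
    have e1 : θ.eval (nd m i) = r i := Lagrange.eval_interpolate_at_node r hinj hi'
    have e2 : Dd.eval (nd m i) = d i := Lagrange.eval_interpolate_at_node d hinj hi'
    rw [eval_add, eval_add, eval_mul, eval_pow, e1, e2]
    show (J0 m).eval (nd m i) + (r i ^ 2 * (-B.eval (nd m i)) - (J0 m).eval (nd m i))
      + B.eval (nd m i) * r i ^ 2 = 0
    ring
  obtain ⟨ω, hω⟩ := wrn_Nd_dvd m _ hroot
  refine ⟨θ, ω, hθdeg, ?_, ?_⟩
  · by_cases h0 : ω = 0
    · rw [h0]; simp
    have h1 : (Nd m * ω).natDegree = m + ω.natDegree := by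
      rw [(wrn_Nd_monic m).natDegree_mul' h0, wrn_Nd_deg]
    have h2 : (J0 m + Dd + B * θ ^ 2).natDegree ≤ 2 * m := by
      refine natDegree_add_le_of_degree_le (natDegree_add_le_of_degree_le (wrn_J0_deg m hm) ?_) ?_
      · omega
      · have hBd : B.natDegree ≤ 2 := by
          rw [hB]
          compute_degree
        have ht2 : (θ ^ 2).natDegree ≤ 2 * (m - 1) := by
          refine (natDegree_pow_le).trans ?_
          omega
        refine (natDegree_mul_le).trans ?_
        omega
    rw [hω, h1] at h2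
    omega
  · intro k
    have hkey : Nd m * ω - (1 + X) * (C (1 + e ^ 2) + C (2 * e) * X) * θ ^ 2 = J0 m + Dd := by
      rw [← hω, ← hB]
      ring
    rw [hkey, coeff_add, add_sub_cancel_left]
    have hexp : Dd.coeff k = ∑ i ∈ range m, d i * (bs i).coeff k := by
      rw [hDd, Lagrange.interpolate_apply, finsetSum_coeff]
      refine Finset.sum_congr rfl fun i _ => ?_
      rw [coeff_C_mul]
    rw [hexp]
    calc |∑ i ∈ range m, d i * (bs i).coeff k|
        ≤ ∑ i ∈ range m, |d i * (bs i).coeff k| := Finset.abs_sum_le_sum_abs _ _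
      _ ≤ ∑ i ∈ range m, δ / M * S i := by
          refine Finset.sum_le_sum fun i hi => ?_
          rw [abs_mul]
          exact mul_le_mul (hr i (Finset.mem_range.1 hi)).le (hSk i k) (abs_nonneg _)
            (by positivity)
      _ = δ / M * (M - 1) := by rw [← Finset.mul_sum, hM]; ring
      _ = δ - δ / M := by field_simp
      _ < δ := by
          have : 0 < δ / M := by positivity
          linarith

end

end Pool.Agent.H695.WR
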