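import Pool.Agent.H327.WR.Coef

set_option autoImplicit false

open Polynomial Finset

namespace Pool.Agent.H327.WR

noncomputable section

lemma Rt_RT {S G : ℚ[X]} (h : Rt S G) : RT (1 + S) (C (1 / 2) * S ^ 2 + G) := by
  induction h with
  | nil => simpa using RT.pt
  | @cons S G f g _ hb ih =>
    obtain ⟨F, W, hR, hf, hg⟩ := hb
    have h := RT.join ih hR
    have e1 : 1 + S + X * F = 1 + (S + f) := by rw [hf]; ring
    have e2 : C (1 / 2) * S ^ 2 + G + W + X * (1 + S) * F
        = C (1 / 2) * (S + f) ^ 2 + (G + g) := by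
      rw [hg]
      have h2 := two_half
      have e3 : X * (1 + S) * F = (1 + S) * f := by rw [hf]; ring
      rw [e3]
      linear_combination (-(S * f)) * h2
    rw [e1, e2] at h
    exact h

/-! ### The coefficients of `J₀` -/

lemma geom_aux (n : ℕ) : (1 - X ^ 2) * ∑ l ∈ range n, (X : ℚ[X]) ^ (2 * l) = 1 - X ^ (2 * n) := by
  induction n with
  | zero => simp
  | succ n ih =>
    rw [sum_range_succ, mul_add, ih]; ring

lemma E0_eq (m : ℕ) : (X : ℚ[X]) ^ 2 * (1 - X ^ 2) * J0 m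
    = 3 * ∑ i ∈ range (m + 1), (X ^ 2 - X ^ (2 * i + 4))
      + ∑ i ∈ range m, (X ^ 3 - X ^ (2 * i + 5)) := by
  have h1 : ∀ n : ℕ, (1 - X ^ 2) * ∑ i ∈ range n, ∑ l ∈ range (i + 1), (X : ℚ[X]) ^ (2 * l)
      = ∑ i ∈ range n, (1 - X ^ (2 * (i + 1))) := by
    intro n
    rw [mul_sum]
    exact sum_congr rfl fun i _ => geom_aux (i + 1)
  have h2 : ∑ i ∈ range (m + 1), ((X : ℚ[X]) ^ 2 - X ^ (2 * i + 4))
      = X ^ 2 * ∑ i ∈ range (m + 1), (1 - X ^ (2 * (i + 1))) := by
    rw [mul_sum]; exact sum_congr rfl fun i _ => by ring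
  have h3 : ∑ i ∈ range m, ((X : ℚ[X]) ^ 3 - X ^ (2 * i + 5))
      = X ^ 3 * ∑ i ∈ range m, (1 - X ^ (2 * (i + 1))) := by
    rw [mul_sum]; exact sum_congr rfl fun i _ => by ring
  rw [h2, h3, ← h1, ← h1]
  unfold J0
  ring

lemma coeff_shift (J : ℚ[X]) (k : ℕ) :
    (X ^ 2 * (1 - X ^ 2) * J).coeff (k + 4) = J.coeff (k + 2) - J.coeff k := by
  have h : (X : ℚ[X]) ^ 2 * (1 - X ^ 2) * J = J * X ^ 2 - J * X ^ 4 := by ring
  rw [h, coeff_sub, coeff_mul_X_pow]
  rw [show k + 4 = k + 2 + 2 by ring, coeff_mul_X_pow]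

lemma E0_even (m j : ℕ) (h1 : 2 ≤ j) (h2 : j ≤ m + 2) :
    ((X : ℚ[X]) ^ 2 * (1 - X ^ 2) * J0 m).coeff (2 * j) = -3 := by
  rw [E0_eq]
  have h3 : (3 : ℚ[X]) = C 3 := rfl
  rw [coeff_add, h3, coeff_C_mul, finsetSum_coeff, finsetSum_coeff]
  have e1 : ∑ i ∈ range (m + 1), ((X : ℚ[X]) ^ 2 - X ^ (2 * i + 4)).coeff (2 * j) = -1 := by
    rw [sum_eq_single (j - 2)]
    · simp only [coeff_sub, coeff_X_pow]
      rw [if_neg (by omega), if_pos (by omega)]; norm_num
    · intro i _ hi
      simp only [coeff_sub, coeff_X_pow]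
      rw [if_neg (by omega), if_neg (by omega)]; norm_num
    · intro h
      exact absurd (mem_range.mpr (by omega)) h
  have e2 : ∑ i ∈ range m, ((X : ℚ[X]) ^ 3 - X ^ (2 * i + 5)).coeff (2 * j) = 0 := by
    refine sum_eq_zero fun i _ => ?_
    simp only [coeff_sub, coeff_X_pow]
    rw [if_neg (by omega), if_neg (by omega)]; norm_num
  rw [e1, e2]; norm_num

lemma E0_odd (m j : ℕ) (h1 : 2 ≤ j) (h2 : j ≤ m + 1) :
    ((X : ℚ[X]) ^ 2 * (1 - X ^ 2) * J0 m).coeff (2 * j + 1) = -1 := by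
  rw [E0_eq]
  have h3 : (3 : ℚ[X]) = C 3 := rfl
  rw [coeff_add, h3, coeff_C_mul, finsetSum_coeff, finsetSum_coeff]
  have e1 : ∑ i ∈ range m, ((X : ℚ[X]) ^ 3 - X ^ (2 * i + 5)).coeff (2 * j + 1) = -1 := by
    rw [sum_eq_single (j - 2)]
    · simp only [coeff_sub, coeff_X_pow]
      rw [if_neg (by omega), if_pos (by omega)]; norm_num
    · intro i _ hi
      simp only [coeff_sub, coeff_X_pow]
      rw [if_neg (by omega), if_neg (by omega)]; norm_num
    · intro h
      exact absurd (mem_range.mpr (by omega)) h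
  have e2 : ∑ i ∈ range (m + 1), ((X : ℚ[X]) ^ 2 - X ^ (2 * i + 4)).coeff (2 * j + 1) = 0 := by
    refine sum_eq_zero fun i _ => ?_
    simp only [coeff_sub, coeff_X_pow]
    rw [if_neg (by omega), if_neg (by omega)]; norm_num
  rw [e1, e2]; norm_num

/-- natural number coefficients -/
lemma exists_sigma {p : ℚ[X]} (hp : p ∈ Zx) (h u : ℕ) (h0 : p.coeff 0 = 0)
    (hd : p.natDegree ≤ h) (hdec : ∀ k, 1 ≤ k → k ≤ h → p.coeff (k + 1) + u ≤ p.coeff k) :
    ∃ σ : ℕ → ℕ, (∀ k, h < k → σ k = 0) ∧ (∀ k, (σ k : ℚ) = p.coeff k) ∧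
      (∀ k, 1 ≤ k → k ≤ h → σ (k + 1) + u ≤ σ k) ∧
      p = ∑ k ∈ Icc 1 h, C (σ k : ℚ) * X ^ k := by
  have hu : (0 : ℚ) ≤ u := Nat.cast_nonneg u
  have hz : ∀ k, h < k → p.coeff k = 0 := fun k hk => coeff_eq_zero_of_natDegree_lt (by omega)
  have hnn : ∀ n k, k + n = h + 1 → 1 ≤ k → 0 ≤ p.coeff k := by
    intro n
    induction n with
    | zero => intro k hk _; rw [hz k (by omega)]
    | succ n ih =>
      intro k hk h1
      have := ih (k + 1) (by omega) (by omega)
      have := hdec k h1 (by omega)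
      linarith
  have hnn' : ∀ k, 0 ≤ p.coeff k := by
    intro k
    rcases Nat.eq_zero_or_pos k with rfl | hk
    · rw [h0]
    · rcases Nat.lt_or_ge h k with h1 | h1
      · rw [hz k h1]
      · exact hnn (h + 1 - k) k (by omega) hk
  have hσ : ∀ k, ∃ s : ℕ, (s : ℚ) = p.coeff k := by
    intro k
    obtain ⟨z, hz⟩ := coeff_int hp k
    have h1 : (0 : ℤ) ≤ z := by
      have := hnn' k
      rw [hz] at this
      exact_mod_cast this
    refine ⟨z.toNat, ?_⟩
    rw [hz]
    exact_mod_cast Int.toNat_of_nonneg h1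
  choose σ hσ using hσ
  refine ⟨σ, ?_, hσ, ?_, ?_⟩
  · intro k hk
    have := hσ k
    rw [hz k hk] at this
    exact_mod_cast this
  · intro k h1 h2
    have := hdec k h1 h2
    rw [← hσ, ← hσ] at this
    exact_mod_cast this
  · ext k
    rw [finsetSum_coeff]
    simp only [coeff_C_mul, coeff_X_pow]
    by_cases hk : k ∈ Icc 1 h
    · rw [sum_eq_single k]
      · rw [if_pos rfl, mul_one, hσ]
      · intro j _ hj
        rw [if_neg (Ne.symm hj), mul_zero]
      · intro h; exact absurd hk h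
    · rw [sum_eq_zero]
      · rw [mem_Icc, not_and_or] at hk
        rcases hk with hk | hk
        · have : k = 0 := by omega
          rw [this, h0]
        · rw [hz k (by omega)]
      · intro j hj
        rw [if_neg (by rintro rfl; exact hk hj), mul_zero]

/-- a polynomial without terms of degree `0` and `1` and with value `0` at `1` and `-1` is
determined by its coefficients of degree at least `4` -/
lemma decomp (E : ℚ[X]) (h : ℕ) (hh : 2 ≤ h) (h0 : E.coeff 0 = 0) (h1 : E.coeff 1 = 0)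
    (e1 : E.eval 1 = 0) (e2 : E.eval (-1) = 0) (hd : E.natDegree ≤ 2 * h) (α β : ℕ → ℕ)
    (hα : ∀ j, 2 ≤ j → j ≤ h → (α j : ℚ) = -E.coeff (2 * j))
    (hβ : ∀ j, 2 ≤ j → j ≤ h → (β j : ℚ) = -E.coeff (2 * j + 1)) :
    ∑ j ∈ Icc 2 h, C (α j : ℚ) * (X ^ 2 - X ^ (2 * j))
      + ∑ j ∈ Icc 2 h, C (β j : ℚ) * (X ^ 3 - X ^ (2 * j + 1)) = E := by
  set R := ∑ j ∈ Icc 2 h, C (α j : ℚ) * ((X : ℚ[X]) ^ 2 - X ^ (2 * j))
      + ∑ j ∈ Icc 2 h, C (β j : ℚ) * (X ^ 3 - X ^ (2 * j + 1)) with hR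
  have hRk : ∀ k, k ≠ 2 → k ≠ 3 → R.coeff k = E.coeff k := by
    intro k k2 k3
    rw [hR, coeff_add, finsetSum_coeff, finsetSum_coeff]
    simp only [coeff_C_mul, coeff_sub, coeff_X_pow]
    rw [if_neg k2, if_neg k3]
    rcases Nat.even_or_odd' k with ⟨j, rfl | rfl⟩
    · have s2 : ∑ i ∈ Icc 2 h, (β i : ℚ) * (0 - if 2 * j = 2 * i + 1 then 1 else 0) = 0 := by
        refine sum_eq_zero fun i _ => ?_
        rw [if_neg (by omega)]; ring
      rw [s2, add_zero]
      by_cases hj : j ∈ Icc 2 h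
      · rw [sum_eq_single j]
        · have := mem_Icc.mp hj
          rw [if_pos rfl, hα j this.1 this.2]; ring
        · intro i _ hi
          rw [if_neg (by omega)]; ring
        · intro h; exact absurd hj h
      · rw [sum_eq_zero]
        · rw [mem_Icc, not_and_or] at hj
          rcases hj with hj | hj
          · have : j = 0 := by omega
            rw [this, Nat.mul_zero, h0]
          · rw [coeff_eq_zero_of_natDegree_lt (by omega)]
        · intro i hi
          rw [if_neg (by rintro hc; apply hj; rwa [show j = i by omega])]; ring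
    · have s2 : ∑ i ∈ Icc 2 h, (α i : ℚ) * (0 - if 2 * j + 1 = 2 * i then 1 else 0) = 0 := by
        refine sum_eq_zero fun i _ => ?_
        rw [if_neg (by omega)]; ring
      rw [s2, zero_add]
      by_cases hj : j ∈ Icc 2 h
      · rw [sum_eq_single j]
        · have := mem_Icc.mp hj
          rw [if_pos rfl, hβ j this.1 this.2]; ring
        · intro i _ hi
          rw [if_neg (by omega)]; ring
        · intro h; exact absurd hj h
      · rw [sum_eq_zero]
        · rw [mem_Icc, not_and_or] at hj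
          rcases hj with hj | hj
          · have : j = 0 := by omega
            rw [this]; simpa using h1.symm
          · rw [coeff_eq_zero_of_natDegree_lt (by omega)]
        · intro i hi
          rw [if_neg (by rintro hc; apply hj; rwa [show j = i by omega])]; ring
  have hD : R - E = C ((R - E).coeff 2) * X ^ 2 + C ((R - E).coeff 3) * X ^ 3 := by
    ext k
    rw [coeff_add, coeff_C_mul, coeff_C_mul, coeff_X_pow, coeff_X_pow]
    by_cases k2 : k = 2
    · subst k2; simp
    · by_cases k3 : k = 3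
      · subst k3; simp
      · rw [if_neg k2, if_neg k3, coeff_sub, hRk k k2 k3]; ring
  have r1 : R.eval 1 = 0 := by
    rw [hR, eval_add, eval_finsetSum, eval_finsetSum]
    simp
  have r2 : R.eval (-1) = 0 := by
    rw [hR, eval_add, eval_finsetSum, eval_finsetSum]
    have a : ∀ i : ℕ, ((-1 : ℚ)) ^ (2 * i) = 1 := fun i => by rw [pow_mul]; norm_num
    rw [sum_eq_zero, sum_eq_zero]
    · norm_num
    · intro i _
      simp only [eval_mul, eval_C, eval_sub, eval_pow, eval_X]
      rw [pow_succ _ (2 * i), a]; norm_num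
    · intro i _
      simp only [eval_mul, eval_C, eval_sub, eval_pow, eval_X]
      rw [a]; norm_num
  have d1 := congrArg (eval 1) hD
  have d2 := congrArg (eval (-1)) hD
  rw [eval_sub, r1, e1] at d1
  rw [eval_sub, r2, e2] at d2
  simp only [eval_add, eval_mul, eval_C, eval_pow, eval_X] at d1 d2
  have c2 : (R - E).coeff 2 = 0 := by linarith
  have c3 : (R - E).coeff 3 = 0 := by linarith
  rw [c2, c3] at hD
  have : R - E = 0 := by rw [hD]; simp
  exact sub_eq_zero.mp this

end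

end Pool.Agent.H327.WR
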