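import Mathlib

/-!
Trees of large diameter all of whose Wiener roots are rational (MP_96b1db_co, Q2): interface.

`RT F W`: there is a rooted tree with depth polynomial `F = ∑ X ^ dist(root, v)` and Wiener polynomial `W`.
`Br f g`: a branch (a rooted tree hung below a new root by an edge): `f = X F`,
`g = W + f - f ^ 2 / 2`.
`Rt S G`: several branches at a common root: `S = ∑ f`, `G = ∑ g`; the tree has depth polynomial `1 + S` and
Wiener polynomial `S ^ 2 / 2 + G`.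
-/

set_option autoImplicit false

open Polynomial Finset

namespace Pool.Agent.H327.WR

noncomputable section

/-- Depth polynomial and Wiener polynomial of rooted trees. -/
inductive RT : ℚ[X] → ℚ[X] → Prop
  | pt : RT 1 0
  | join {F W F' W' : ℚ[X]} : RT F W → RT F' W' → RT (F + X * F') (W + W' + X * F * F')

/-- Branches. -/
def Br (f g : ℚ[X]) : Prop := ∃ F W : ℚ[X], RT F W ∧ f = X * F ∧ g = W + f - C (1 / 2) * f ^ 2

/-- Collections of branches. -/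
inductive Rt : ℚ[X] → ℚ[X] → Prop
  | nil : Rt 0 0
  | cons {S G f g : ℚ[X]} : Rt S G → Br f g → Rt (S + f) (G + g)

/-- `fp k = X + X ^ 2 + ... + X ^ k` (the path with `k` vertices as a branch). -/
def fp (k : ℕ) : ℚ[X] := ∑ i ∈ range k, X ^ (i + 1)

/-- the `g` of the path with `k` vertices -/
def gp : ℕ → ℚ[X]
  | 0 => 0
  | k + 1 => gp k + C (1 / 2) * fp k ^ 2 + X * (1 + fp k) - C (1 / 2) * (X * (1 + fp k)) ^ 2

/-- `lam k = gp k - gp (k - 1)` -/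
def lam (k : ℕ) : ℚ[X] := gp k - gp (k - 1)

/-- The linear map with `L (X ^ k) = lam k`. -/
def L : ℚ[X] →ₗ[ℚ] ℚ[X] := Polynomial.lsum fun k => LinearMap.toSpanSingleton ℚ ℚ[X] (lam k)

/-- The Wiener polynomial of a graph on `Fin n`, the sum over unordered pairs of distinct vertices. -/
def wiener {n : ℕ} (G : SimpleGraph (Fin n)) : ℤ[X] :=
  ∑ u : Fin n, ∑ v ∈ Finset.Ioi u, X ^ G.dist u v

/-- (T) rooted trees exist. -/
def ST : Prop := ∀ F W : ℚ[X], RT F W → ∃ (n : ℕ) (G : SimpleGraph (Fin n)) (r : Fin n), G.IsTree ∧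
  F = ∑ v : Fin n, X ^ G.dist r v ∧ W = (wiener G).map (Int.castRingHom ℚ)

/-- (G) gadgets and filling. `σ k` vertices at depth `k`. -/
def SG : Prop := ∀ (h Q : ℕ) (σ α β : ℕ → ℕ), 2 ≤ h → (∀ k, h < k → σ k = 0) →
  (∀ j, 2 ≤ j → j ≤ h → β j + β (j - 1) ≤ α j) → β 1 = 0 → β h = 0 → (∀ j, α j ≤ Q ^ 2) →
  (∀ k, 1 ≤ k → k ≤ h → σ (k + 1) + 100 * h * (Q + 1) ≤ σ k) →
  Rt (∑ k ∈ Finset.Icc 1 h, C (σ k : ℚ) * X ^ k)
    (L (∑ k ∈ Finset.Icc 1 h, C (σ k : ℚ) * X ^ k)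
      + ∑ j ∈ Finset.Icc 2 h, C (α j : ℚ) * (X ^ 2 - X ^ (2 * j))
      + ∑ j ∈ Finset.Icc 2 h, C (β j : ℚ) * (X ^ 3 - X ^ (2 * j + 1)))

/-- the polynomial `N = ∏ (X + (4 m + i))`, `i < m` -/
def Nd (m : ℕ) : ℚ[X] := ∏ i ∈ range m, (X + C ((4 * m + i : ℕ) : ℚ))

/-- the target `J₀ = 3 ∑_{i ≤ m} q_i + X ∑_{i < m} q_i`, `q_i = 1 + X ^ 2 + ... + X ^ (2 i)` -/
def J0 (m : ℕ) : ℚ[X] := 3 * (∑ i ∈ range (m + 1), ∑ l ∈ range (i + 1), X ^ (2 * l))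
  + X * ∑ i ∈ range m, ∑ l ∈ range (i + 1), X ^ (2 * l)

/-- (N) the choice of `θ` and `ω`. Here `e = 1 / (20 m)`. -/
def SN : Prop := ∀ (m : ℕ) (δ : ℚ), 1 ≤ m → 0 < δ → ∃ θ ω : ℚ[X],
  θ.natDegree ≤ m - 1 ∧ ω.natDegree ≤ m ∧ ∀ k, |(Nd m * ω
    - (1 + X) * (C (1 + (1 / (20 * m : ℚ)) ^ 2) + C (2 * (1 / (20 * m : ℚ))) * X) * θ ^ 2).coeff k
      - (J0 m).coeff k| < δ

end

end Pool.Agent.H327.WR
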