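import Mathlib
import Pool.Agent.H327.WR.Stm

/-!
# Rooted trees generated by joins are honest trees
-/

set_option autoImplicit false

open Polynomial Finset

namespace Pool.Agent.H550.WR

open Pool.Agent.H327.WR

theorem lip {V : Type} (H : SimpleGraph V) (D : V → ℕ)
    (hD : ∀ a b, H.Adj a b → D b ≤ D a + 1) {a b : V} (p : H.Walk a b) :
    D b ≤ D a + p.length := by
  induction p with
  | nil => simp
  | cons h p ih =>
    have := hD _ _ h
    rw [SimpleGraph.Walk.length_cons]
    omega

theorem lip_dist {V : Type} (H : SimpleGraph V) (hc : H.Connected) (D : V → ℕ)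
    (hD : ∀ a b, H.Adj a b → D b ≤ D a + 1) (a b : V) (ha : D a = 0) :
    D b ≤ H.dist a b := by
  obtain ⟨p, hp⟩ := hc.exists_walk_length_eq_dist a b
  have := lip H D hD p
  omega

theorem dist_adj_le {V : Type} (G : SimpleGraph V) (hc : G.Connected) (u a b : V)
    (h : G.Adj a b) : G.dist u b ≤ G.dist u a + 1 := by
  have h1 := hc.dist_triangle (u := u) (v := a) (w := b)
  have h2 : G.dist a b = 1 := SimpleGraph.dist_eq_one_iff_adj.2 h
  omega

theorem dist_hom_le {V W : Type} (G : SimpleGraph V) (H : SimpleGraph W) (hc : G.Connected)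
    (f : G →g H) (u v : V) : H.dist (f u) (f v) ≤ G.dist u v := by
  obtain ⟨p, hp⟩ := hc.exists_walk_length_eq_dist u v
  rw [← hp, ← SimpleGraph.Walk.length_map f p]
  exact SimpleGraph.dist_le _

/-- the join of two rooted graphs -/
def jn {V V' : Type} (G : SimpleGraph V) (G' : SimpleGraph V') (r : V) (r' : V') :
    SimpleGraph (V ⊕ V') := (G ⊕g G') ⊔ SimpleGraph.edge (.inl r) (.inr r')

section join

variable {V V' : Type} (G : SimpleGraph V) (G' : SimpleGraph V') (r : V) (r' : V')

theorem jn_conn (hG : G.Connected) (hG' : G'.Connected) : (jn G G' r r').Connected :=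
  hG.sum_sup_edge hG'

theorem jn_ll (u v : V) : (jn G G' r r').Adj (.inl u) (.inl v) ↔ G.Adj u v := by
  simp [jn, SimpleGraph.edge_adj]

theorem jn_rr (u v : V') : (jn G G' r r').Adj (.inr u) (.inr v) ↔ G'.Adj u v := by
  simp [jn, SimpleGraph.edge_adj]

theorem jn_lr (u : V) (v : V') : (jn G G' r r').Adj (.inl u) (.inr v) ↔ u = r ∧ v = r' := by
  simp [jn, SimpleGraph.edge_adj, eq_comm]

theorem dist_ll (hG : G.Connected) (hG' : G'.Connected) (u v : V) :
    (jn G G' r r').dist (.inl u) (.inl v) = G.dist u v := by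
  apply le_antisymm
  · have h := dist_hom_le G (jn G G' r r') hG
      ⟨Sum.inl, fun {a b} hab => (jn_ll G G' r r' a b).2 hab⟩ u v
    exact h
  · have h := lip_dist (jn G G' r r') (jn_conn G G' r r' hG hG')
      (Sum.elim (fun v => G.dist u v) (fun w => G.dist u r + 1 + G'.dist r' w)) ?_
      (.inl u) (.inl v) (by simp)
    · simpa using h
    · rintro (a | a) (b | b) hab
      · rw [jn_ll] at hab
        exact dist_adj_le G hG u a b hab
      · rw [jn_lr] at hab
        obtain ⟨rfl, rfl⟩ := hab
        simp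
      · have := (jn_lr G G' r r' b a).1 hab.symm
        obtain ⟨rfl, rfl⟩ := this
        simp only [Sum.elim_inl, Sum.elim_inr]
        omega
      · rw [jn_rr] at hab
        have := dist_adj_le G' hG' r' a b hab
        simp only [Sum.elim_inr]
        omega

theorem dist_lr (hG : G.Connected) (hG' : G'.Connected) (u : V) (v : V') :
    (jn G G' r r').dist (.inl u) (.inr v) = G.dist u r + 1 + G'.dist r' v := by
  have hc := jn_conn G G' r r' hG hG'
  apply le_antisymm
  · have h1 := dist_hom_le G (jn G G' r r') hG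
      ⟨Sum.inl, fun {a b} hab => (jn_ll G G' r r' a b).2 hab⟩ u r
    have h2 := dist_hom_le G' (jn G G' r r') hG'
      ⟨Sum.inr, fun {a b} hab => (jn_rr G G' r r' a b).2 hab⟩ r' v
    have h3 : (jn G G' r r').dist (.inl r) (.inr r') = 1 :=
      SimpleGraph.dist_eq_one_iff_adj.2 ((jn_lr G G' r r' r r').2 ⟨rfl, rfl⟩)
    have h4 := hc.dist_triangle (u := .inl u) (v := .inl r) (w := .inr v)
    have h5 := hc.dist_triangle (u := .inl r) (v := .inr r') (w := .inr v)
    simp only [RelHom.coeFn_mk] at h1 h2
    omega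
  · have h := lip_dist (jn G G' r r') hc
      (Sum.elim (fun v => G.dist u v) (fun w => G.dist u r + 1 + G'.dist r' w)) ?_
      (.inl u) (.inr v) (by simp)
    · simpa using h
    · rintro (a | a) (b | b) hab
      · rw [jn_ll] at hab
        exact dist_adj_le G hG u a b hab
      · rw [jn_lr] at hab
        obtain ⟨rfl, rfl⟩ := hab
        simp
      · have := (jn_lr G G' r r' b a).1 hab.symm
        obtain ⟨rfl, rfl⟩ := this
        simp only [Sum.elim_inl, Sum.elim_inr]
        omega
      · rw [jn_rr] at hab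
        have := dist_adj_le G' hG' r' a b hab
        simp only [Sum.elim_inr]
        omega

theorem dist_rr (hG : G.Connected) (hG' : G'.Connected) (u v : V') :
    (jn G G' r r').dist (.inr u) (.inr v) = G'.dist u v := by
  apply le_antisymm
  · have h := dist_hom_le G' (jn G G' r r') hG'
      ⟨Sum.inr, fun {a b} hab => (jn_rr G G' r r' a b).2 hab⟩ u v
    exact h
  · have h := lip_dist (jn G G' r r') (jn_conn G G' r r' hG hG')
      (Sum.elim (fun w => G'.dist u r' + 1 + G.dist r w) (fun v => G'.dist u v)) ?_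
      (.inr u) (.inr v) (by simp)
    · simpa using h
    · rintro (a | a) (b | b) hab
      · rw [jn_ll] at hab
        have := dist_adj_le G hG r a b hab
        simp only [Sum.elim_inl]
        omega
      · rw [jn_lr] at hab
        obtain ⟨rfl, rfl⟩ := hab
        simp only [Sum.elim_inl, Sum.elim_inr]
        omega
      · have := (jn_lr G G' r r' b a).1 hab.symm
        obtain ⟨rfl, rfl⟩ := this
        simp
      · rw [jn_rr] at hab
        exact dist_adj_le G' hG' u a b hab

theorem jn_tree [Finite V] [Finite V'] (hG : G.IsTree) (hG' : G'.IsTree) :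
    (jn G G' r r').IsTree := by
  rw [SimpleGraph.isTree_iff_connected_and_card] at hG hG' ⊢
  refine ⟨jn_conn G G' r r' hG.1 hG'.1, ?_⟩
  have h1 : (jn G G' r r').edgeSet = insert s(.inl r, .inr r') (G ⊕g G').edgeSet := by
    rw [jn, SimpleGraph.edgeSet_sup, SimpleGraph.edgeSet_edge_of_ne (by simp), Set.union_comm]
    rfl
  have h2 : s(.inl r, .inr r') ∉ (G ⊕g G').edgeSet := by
    simp
  rw [h1, Nat.card_coe_set_eq, Set.ncard_insert_of_notMem h2 (Set.toFinite _),
    ← Nat.card_coe_set_eq, Nat.card_congr SimpleGraph.edgeSetSumEquiv, Nat.card_sum, Nat.card_sum]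
  omega

end join

/-- the statement for general finite vertex types -/
theorem gen (F W : ℚ[X]) (h : RT F W) : ∃ (V : Type) (_ : Fintype V) (G : SimpleGraph V) (r : V),
    G.IsTree ∧ F = ∑ v : V, X ^ G.dist r v ∧
      2 * W + (Fintype.card V : ℚ[X]) = ∑ u : V, ∑ v : V, X ^ G.dist u v := by
  induction h with
  | pt =>
    refine ⟨Fin 1, inferInstance, ⊥, 0, SimpleGraph.IsTree.of_subsingleton, ?_, ?_⟩
    · simp
    · simp
  | @join F W F' W' _ _ ih ih' =>
    obtain ⟨V, iV, G, r, hG, hF, hW⟩ := ih
    obtain ⟨V', iV', G', r', hG', hF', hW'⟩ := ih'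
    have hc := hG.connected
    have hc' := hG'.connected
    refine ⟨V ⊕ V', inferInstance, jn G G' r r', .inl r, jn_tree G G' r r' hG hG', ?_, ?_⟩
    · rw [Fintype.sum_sum_type]
      simp only [dist_ll G G' r r' hc hc', dist_lr G G' r r' hc hc', SimpleGraph.dist_self]
      rw [← hF, hF', Finset.mul_sum]
      congr 1
      refine Finset.sum_congr rfl fun v _ => ?_
      rw [zero_add, pow_add, pow_one]
    · rw [Fintype.sum_sum_type]
      simp only [Fintype.sum_sum_type]
      have hrl : ∀ (u : V') (v : V), (jn G G' r r').dist (.inr u) (.inl v) =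
          G.dist v r + 1 + G'.dist r' u := by
        intro u v
        rw [SimpleGraph.dist_comm, dist_lr G G' r r' hc hc']
      simp only [dist_ll G G' r r' hc hc', dist_lr G G' r r' hc hc', dist_rr G G' r r' hc hc', hrl]
      have hx : ∑ u : V, ∑ v : V', (X : ℚ[X]) ^ (G.dist u r + 1 + G'.dist r' v) = X * F * F' := by
        rw [hF, hF', mul_assoc, Finset.sum_mul_sum, Finset.mul_sum]
        refine Finset.sum_congr rfl fun u _ => ?_
        rw [Finset.mul_sum]
        refine Finset.sum_congr rfl fun v _ => ?_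
        rw [SimpleGraph.dist_comm (u := u), pow_add, pow_add, pow_one]
        ring
      have hx' : ∑ u : V', ∑ v : V, (X : ℚ[X]) ^ (G.dist v r + 1 + G'.dist r' u) = X * F * F' := by
        rw [Finset.sum_comm, hx]
      rw [Finset.sum_add_distrib, Finset.sum_add_distrib, hx, hx', ← hW, ← hW', Fintype.card_sum,
        Nat.cast_add]
      ring

theorem sum_pairs {n : ℕ} (f : Fin n → Fin n → ℚ[X]) (hs : ∀ u v, f u v = f v u)
    (h1 : ∀ u, f u u = 1) :
    ∑ u, ∑ v, f u v = 2 * (∑ u : Fin n, ∑ v ∈ Finset.Ioi u, f u v) + (n : ℚ[X]) := by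
  have e : ∀ u : Fin n, ∑ v, f u v = ∑ v ∈ Finset.Ioi u, f u v + ∑ v ∈ Finset.Iio u, f u v + 1 := by
    intro u
    have hu : (Finset.univ : Finset (Fin n)) = (Finset.Ioi u ∪ Finset.Iio u) ∪ {u} := by
      ext v
      simp only [Finset.mem_univ, Finset.mem_union, Finset.mem_Ioi, Finset.mem_Iio,
        Finset.mem_singleton, true_iff]
      rcases lt_trichotomy u v with h | h | h
      · exact Or.inl (Or.inl h)
      · exact Or.inr h.symm
      · exact Or.inl (Or.inr h)
    rw [hu, Finset.sum_union, Finset.sum_union, Finset.sum_singleton, h1]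
    · rw [Finset.disjoint_left]
      intro v hv hv'
      rw [Finset.mem_Ioi] at hv
      rw [Finset.mem_Iio] at hv'
      exact lt_asymm hv hv'
    · rw [Finset.disjoint_singleton_right]
      simp
  have e2 : ∑ u : Fin n, ∑ v ∈ Finset.Iio u, f u v = ∑ u : Fin n, ∑ v ∈ Finset.Ioi u, f u v := by
    rw [Finset.sum_comm' (t' := Finset.univ) (s' := fun v => Finset.Ioi v)]
    · refine Finset.sum_congr rfl fun u _ => Finset.sum_congr rfl fun v _ => hs _ _
    · intro u v
      simp
  rw [Finset.sum_congr rfl (fun u _ => e u), Finset.sum_add_distrib, Finset.sum_add_distrib, e2]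
  simp
  ring

theorem T : Pool.Agent.H327.WR.ST := by
  intro F W h
  obtain ⟨V, iV, G, r, hG, hF, hW⟩ := gen F W h
  let e : V ≃ Fin (Fintype.card V) := Fintype.equivFin V
  let G₁ : SimpleGraph (Fin (Fintype.card V)) := G.comap e.symm
  let i : G₁ ≃g G := SimpleGraph.Iso.comap e.symm G
  have hG₁ : G₁.IsTree := i.isTree_iff.2 hG
  have hd : ∀ a b, G₁.dist a b = G.dist (e.symm a) (e.symm b) := by
    intro a b
    apply le_antisymm
    · have := dist_hom_le G G₁ hG.connected i.symm.toHom (e.symm a) (e.symm b)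
      have e1 : ∀ x, i.symm.toHom (e.symm x) = x := fun x => i.symm_apply_apply x
      rw [e1, e1] at this
      exact this
    · exact dist_hom_le G₁ G hG₁.connected i.toHom a b
  refine ⟨Fintype.card V, G₁, e r, hG₁, ?_, ?_⟩
  · rw [hF]
    refine Fintype.sum_equiv e _ _ fun v => ?_
    rw [hd, e.symm_apply_apply, e.symm_apply_apply]
  · have hw : (wiener G₁).map (Int.castRingHom ℚ) =
        ∑ u : Fin (Fintype.card V), ∑ v ∈ Finset.Ioi u, X ^ G₁.dist u v := by
      rw [wiener, Polynomial.map_sum]
      refine Finset.sum_congr rfl fun u _ => ?_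
      rw [Polynomial.map_sum]
      refine Finset.sum_congr rfl fun v _ => ?_
      rw [Polynomial.map_pow, Polynomial.map_X]
    have h1 := sum_pairs (fun u v : Fin (Fintype.card V) => (X : ℚ[X]) ^ G₁.dist u v)
      (fun u v => by rw [SimpleGraph.dist_comm]) (fun u => by simp)
    have h2 : ∑ u : Fin (Fintype.card V), ∑ v, (X : ℚ[X]) ^ G₁.dist u v =
        ∑ u : V, ∑ v : V, X ^ G.dist u v := by
      symm
      refine Fintype.sum_equiv e _ _ fun u => ?_
      refine Fintype.sum_equiv e _ _ fun v => ?_
      rw [hd, e.symm_apply_apply, e.symm_apply_apply]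
    rw [hw]
    rw [h2, ← hW] at h1
    have h3 : (2 : ℚ[X]) * W = 2 * ∑ u : Fin (Fintype.card V), ∑ v ∈ Finset.Ioi u,
        X ^ G₁.dist u v := add_right_cancel h1
    exact mul_left_cancel₀ two_ne_zero h3

end Pool.Agent.H550.WR

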